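import Pool.Agent.FWar.MixPA

/-!
# YWar.PairC: pairs of letters, families of polynomials

`lo n c x = ∑ i < n, c i x^i`, `pl k c x = x^k + lo k c x`. For `|c i| ≤ T`, `|d i| ≤ T` (`i < k`) and
`δ ≤ |d (k-1)|` with `δ > 0`, uniformly, for `P ≥ P0(k, T, δ)`:
* `singleC`: at most `1 + C L / P^(k-1)` letters `u ∈ mainI P` with `|pl k c u - α| ≤ L` (also `J1 P`);
* `pairC`: at most `C (1 + L1/P^(k-1)) (1 + L1/P^(k-1) + L2/P^(k-2))` pairs `(u, v) ∈ mainI P × J1 P` with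
  `|pl k c u + pl k c v - α| ≤ L1`, `|lo k d u + lo k d v - β| ≤ L2`;
* `boundC`: `|rs (pl k c) w| ≤ C P^k`, `|rs (lo k d) w| ≤ C P^(k-1)` for words `w`.

PROOF of `pairC`. On `[P/8, 16 P]` the increments of `pl k c` differ from those of `x^k` by at most
`η P^(k-1) |x - y|`, those of `lo k d` from those of `d (k-1) x^(k-1)` by at most `η P^(k-2) |x - y|`,
`η` as small as we like for large `P` (`lo_inc`). Then as in `Pool/Agent/FWar/PairS.lean`.
-/

namespace YWar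

open MWg FWar Finset Filter Topology

/-- Lower terms of a polynomial. -/
noncomputable def lo (n : ℕ) (c : ℕ → ℝ) (x : ℝ) : ℝ := ∑ i ∈ Finset.range n, c i * x ^ i

/-- The monic polynomial of degree `k` with lower coefficients `c`. -/
noncomputable def pl (k : ℕ) (c : ℕ → ℝ) (x : ℝ) : ℝ := x ^ k + lo k c x

private theorem ps_am (n : ℕ) {x y : ℝ} (hx : 0 ≤ x) (hy : 0 ≤ y) :
    0 ≤ (n : ℝ) * x ^ (n + 1) + y ^ (n + 1) - (n + 1) * (x ^ n * y) := by
  induction n with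
  | zero => simp
  | succ n ih =>
    have h1 : ((n + 1 : ℕ) : ℝ) * x ^ (n + 1 + 1) + y ^ (n + 1 + 1) -
        (((n + 1 : ℕ) : ℝ) + 1) * (x ^ (n + 1) * y) =
        y * ((n : ℝ) * x ^ (n + 1) + y ^ (n + 1) - (n + 1) * (x ^ n * y)) +
          ((n : ℝ) + 1) * x ^ n * (x - y) ^ 2 := by
      push_cast
      ring
    rw [h1]
    have h2 := mul_nonneg hy ih
    have h3 : 0 ≤ ((n : ℝ) + 1) * x ^ n * (x - y) ^ 2 := by positivity
    linarith

private theorem ps_low (j : ℕ) (hj : 1 ≤ j) (m : ℕ) {x y : ℝ} (hy : 0 ≤ y) (hxy : y ≤ x) :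
    ((j + m : ℕ) : ℝ) * (y ^ m * (x ^ j - y ^ j)) ≤ (j : ℝ) * (x ^ (j + m) - y ^ (j + m)) := by
  have hx : 0 ≤ x := hy.trans hxy
  induction m with
  | zero => simp
  | succ m ih =>
    have h1 := ps_am (j + m) hx hy
    have hn : (0 : ℝ) < ((j + m : ℕ) : ℝ) := by
      have : 0 < j + m := by omega
      exact_mod_cast this
    set n : ℕ := j + m with hnm
    have h2 : ((n : ℝ) + 1) * (y * (x ^ n - y ^ n)) ≤ n * (x ^ (n + 1) - y ^ (n + 1)) := by
      have : (n : ℝ) * (x ^ (n + 1) - y ^ (n + 1)) - ((n : ℝ) + 1) * (y * (x ^ n - y ^ n)) =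
          (n : ℝ) * x ^ (n + 1) + y ^ (n + 1) - (n + 1) * (x ^ n * y) := by ring
      linarith
    have h3 : (n : ℝ) * ((n + 1) * (y ^ (m + 1) * (x ^ j - y ^ j))) ≤
        n * (j * (x ^ (n + 1) - y ^ (n + 1))) := by
      have h4 := mul_le_mul_of_nonneg_left ih (by positivity : 0 ≤ ((n : ℝ) + 1) * y)
      have h5 := mul_le_mul_of_nonneg_left h2 (Nat.cast_nonneg j : (0 : ℝ) ≤ (j : ℝ))
      calc (n : ℝ) * ((n + 1) * (y ^ (m + 1) * (x ^ j - y ^ j)))
          = ((n : ℝ) + 1) * y * (n * (y ^ m * (x ^ j - y ^ j))) := by ring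
        _ ≤ ((n : ℝ) + 1) * y * (j * (x ^ n - y ^ n)) := h4
        _ = (j : ℝ) * (((n : ℝ) + 1) * (y * (x ^ n - y ^ n))) := by ring
        _ ≤ (j : ℝ) * (n * (x ^ (n + 1) - y ^ (n + 1))) := h5
        _ = _ := by ring
    have h6 := le_of_mul_le_mul_left h3 hn
    have h7 : j + (m + 1) = n + 1 := by omega
    rw [h7]
    push_cast
    exact h6

private theorem ps_up (j : ℕ) (hj : 1 ≤ j) (m : ℕ) {x y : ℝ} (hy : 0 ≤ y) (hxy : y ≤ x) :
    (j : ℝ) * (x ^ (j + m) - y ^ (j + m)) ≤ ((j + m : ℕ) : ℝ) * (x ^ m * (x ^ j - y ^ j)) := by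
  have hx : 0 ≤ x := hy.trans hxy
  induction m with
  | zero => simp
  | succ m ih =>
    have h1 := ps_am (j + m) hy hx
    have hn : (0 : ℝ) < ((j + m : ℕ) : ℝ) := by
      have : 0 < j + m := by omega
      exact_mod_cast this
    set n : ℕ := j + m with hnm
    have h2 : (n : ℝ) * (x ^ (n + 1) - y ^ (n + 1)) ≤ ((n : ℝ) + 1) * (x * (x ^ n - y ^ n)) := by
      have : ((n : ℝ) + 1) * (x * (x ^ n - y ^ n)) - (n : ℝ) * (x ^ (n + 1) - y ^ (n + 1)) =
          (n : ℝ) * y ^ (n + 1) + x ^ (n + 1) - (n + 1) * (y ^ n * x) := by ring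
      linarith
    have h3 : (n : ℝ) * (j * (x ^ (n + 1) - y ^ (n + 1))) ≤
        (n : ℝ) * ((n + 1) * (x ^ (m + 1) * (x ^ j - y ^ j))) := by
      have h4 := mul_le_mul_of_nonneg_left ih (by positivity : 0 ≤ ((n : ℝ) + 1) * x)
      have h5 := mul_le_mul_of_nonneg_left h2 (Nat.cast_nonneg j : (0 : ℝ) ≤ (j : ℝ))
      calc (n : ℝ) * (j * (x ^ (n + 1) - y ^ (n + 1)))
          = (j : ℝ) * (n * (x ^ (n + 1) - y ^ (n + 1))) := by ring
        _ ≤ (j : ℝ) * (((n : ℝ) + 1) * (x * (x ^ n - y ^ n))) := h5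
        _ = ((n : ℝ) + 1) * x * (j * (x ^ n - y ^ n)) := by ring
        _ ≤ ((n : ℝ) + 1) * x * (n * (x ^ m * (x ^ j - y ^ j))) := h4
        _ = _ := by ring
    have h6 := le_of_mul_le_mul_left h3 hn
    have h7 : j + (m + 1) = n + 1 := by omega
    rw [h7]
    push_cast
    exact h6

private theorem ps_cn_eq' {ι : Type*} (W : Finset ι) (p : ι → Prop) [DecidablePred p] :
    cn W p = ((W.filter p).card : ℝ) := by
  unfold cn
  congr

/-- a set of naturals of small diameter. -/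
private theorem ps_card_diam {S : Finset ℕ} {D : ℝ} (hD : 0 ≤ D)
    (h : ∀ u ∈ S, ∀ u' ∈ S, u' < u → (u : ℝ) - u' ≤ D) : (S.card : ℝ) ≤ 1 + D := by
  rcases S.eq_empty_or_nonempty with rfl | hne
  · simp only [Finset.card_empty, Nat.cast_zero]
    linarith
  · have hmin := S.min'_mem hne
    have hsub : S ⊆ Finset.Icc (S.min' hne) (S.min' hne + ⌊D⌋₊) := by
      intro u hu
      have h1 := S.min'_le u hu
      refine Finset.mem_Icc.2 ⟨h1, ?_⟩
      rcases Nat.eq_or_lt_of_le h1 with h2 | h2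
      · omega
      · have h3 := h u hu _ hmin h2
        have h4 : ((u - S.min' hne : ℕ) : ℝ) ≤ D := by
          rw [Nat.cast_sub h1]
          exact h3
        have h5 := Nat.le_floor h4
        omega
    have h6 := Finset.card_le_card hsub
    rw [Nat.card_Icc] at h6
    have h7 : S.card ≤ ⌊D⌋₊ + 1 := by omega
    have h8 := Nat.floor_le hD
    have h9 : (S.card : ℝ) ≤ (⌊D⌋₊ : ℝ) + 1 := by exact_mod_cast h7
    linarith

private theorem ps_cn_diam {W : Finset ℕ} {p : ℕ → Prop} {D : ℝ} (hD : 0 ≤ D)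
    (h : ∀ u ∈ W, ∀ u' ∈ W, p u → p u' → u' < u → (u : ℝ) - u' ≤ D) : cn W p ≤ 1 + D := by
  classical
  rw [ps_cn_eq']
  refine ps_card_diam hD ?_
  intro u hu u' hu' hlt
  have h1 := Finset.mem_filter.1 hu
  have h2 := Finset.mem_filter.1 hu'
  exact h u h1.1 u' h2.1 h1.2 h2.2 hlt


/-- lower bound for the increment of a power -/
private theorem ps_inc {n : ℕ} (hn : 1 ≤ n) {c x y : ℝ} (hc : 0 ≤ c) (hcy : c ≤ y) (hxy : y ≤ x) :
    c ^ (n - 1) * (x - y) ≤ x ^ n - y ^ n := by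
  have hy : 0 ≤ y := hc.trans hcy
  have a3 := ps_low 1 le_rfl (n - 1) (x := x) (y := y) hy hxy
  have e1 : 1 + (n - 1) = n := by omega
  rw [e1, pow_one, pow_one, Nat.cast_one, one_mul] at a3
  have hn1 : (1 : ℝ) ≤ n := by exact_mod_cast hn
  have h1 : c ^ (n - 1) * (x - y) ≤ y ^ (n - 1) * (x - y) :=
    mul_le_mul_of_nonneg_right (pow_le_pow_left₀ hc hcy _) (by linarith)
  have h2 : 0 ≤ y ^ (n - 1) * (x - y) := mul_nonneg (pow_nonneg hy _) (by linarith)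
  nlinarith


theorem lo_inc {n : ℕ} {c : ℕ → ℝ} {T R x y : ℝ} (hT : 0 ≤ T) (hc : ∀ i < n, |c i| ≤ T)
    (hy : 0 ≤ y) (hxy : y ≤ x) (hxR : x ≤ R) (hR : 1 ≤ R) :
    |lo n c x - lo n c y| ≤ T * ((n : ℝ) * ((n : ℝ) - 1)) * R ^ (n - 2) * (x - y) := by
  have hx : 0 ≤ x := hy.trans hxy
  have hR0 : 0 ≤ R := by linarith
  rcases Nat.lt_or_ge n 2 with hn | hn
  · have h0 : lo n c x - lo n c y = 0 := by
      unfold lo
      rcases Nat.lt_or_ge n 1 with h | h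
      · have : n = 0 := by omega
        subst this
        simp
      · have : n = 1 := by omega
        subst this
        simp
    rw [h0, abs_zero]
    rcases Nat.lt_or_ge n 1 with h | h
    · have : n = 0 := by omega
      subst this
      simp
    · have : n = 1 := by omega
      subst this
      simp
  have hterm : ∀ i ∈ Finset.range n, |c i * x ^ i - c i * y ^ i| ≤
      T * ((n : ℝ) - 1) * R ^ (n - 2) * (x - y) := by
    intro i hi
    have hi' := Finset.mem_range.1 hi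
    have h1 := hc i hi'
    rw [← mul_sub, abs_mul]
    have h2 : |x ^ i - y ^ i| ≤ ((n : ℝ) - 1) * R ^ (n - 2) * (x - y) := by
      have h3 : 0 ≤ x ^ i - y ^ i := by
        have := pow_le_pow_left₀ hy hxy i
        linarith
      rw [abs_of_nonneg h3]
      rcases Nat.eq_zero_or_pos i with rfl | hi0
      · simp only [pow_zero, sub_self]
        have h4 : (2 : ℝ) ≤ n := by exact_mod_cast hn
        have h5 : 0 ≤ R ^ (n - 2) := by positivity
        have h6 : 0 ≤ x - y := by linarith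
        exact mul_nonneg (mul_nonneg (by linarith) h5) h6
      · have h4 := ps_up 1 le_rfl (i - 1) (x := x) (y := y) hy hxy
        have e1 : 1 + (i - 1) = i := by omega
        rw [e1, pow_one, pow_one, Nat.cast_one, one_mul] at h4
        refine h4.trans ?_
        have h5 : x ^ (i - 1) ≤ R ^ (n - 2) :=
          (pow_le_pow_left₀ hx hxR _).trans (pow_le_pow_right₀ hR (by omega))
        have h6 : (i : ℝ) ≤ (n : ℝ) - 1 := by
          have : i + 1 ≤ n := hi'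
          have h7 : ((i + 1 : ℕ) : ℝ) ≤ n := by exact_mod_cast this
          push_cast at h7
          linarith
        have h8 : 0 ≤ x - y := by linarith
        have h9 : 0 ≤ x ^ (i - 1) := by positivity
        calc (i : ℝ) * (x ^ (i - 1) * (x - y)) ≤ ((n : ℝ) - 1) * (R ^ (n - 2) * (x - y)) :=
              mul_le_mul h6 (mul_le_mul_of_nonneg_right h5 h8) (mul_nonneg h9 h8)
                (le_trans (Nat.cast_nonneg _) h6)
          _ = _ := by ring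
    calc |c i| * |x ^ i - y ^ i| ≤ T * (((n : ℝ) - 1) * R ^ (n - 2) * (x - y)) :=
          mul_le_mul h1 h2 (abs_nonneg _) hT
      _ = _ := by ring
  have e1 : lo n c x - lo n c y = ∑ i ∈ Finset.range n, (c i * x ^ i - c i * y ^ i) := by
    unfold lo
    rw [Finset.sum_sub_distrib]
  rw [e1]
  refine (Finset.abs_sum_le_sum_abs _ _).trans ((Finset.sum_le_sum hterm).trans (le_of_eq ?_))
  rw [Finset.sum_const, Finset.card_range, nsmul_eq_mul]
  ring

/-- the error is small compared with the main term -/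
theorem lo_small {n k : ℕ} (hn : 1 ≤ n) (hnk : n ≤ k) {c : ℕ → ℝ} {T P η x y : ℝ} (hT : 0 ≤ T)
    (hη : 0 < η) (hP : 1 ≤ P) (hPT : T * (k : ℝ) ^ 2 * 16 ^ k / η ≤ P)
    (hc : ∀ i < n, |c i| ≤ T) (hy : 0 ≤ y) (hxy : y ≤ x) (hx : x ≤ 16 * P) :
    |lo n c x - lo n c y| ≤ η * P ^ (n - 1) * (x - y) := by
  have h1 := lo_inc hT hc hy hxy hx (by linarith)
  refine h1.trans ?_
  apply mul_le_mul_of_nonneg_right _ (by linarith)
  rcases Nat.lt_or_ge n 2 with h | h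
  · have : n = 1 := by omega
    subst this
    simp only [Nat.cast_one, sub_self, mul_zero, zero_mul]
    positivity
  · have h2 : T * (k : ℝ) ^ 2 * 16 ^ k ≤ P * η := (div_le_iff₀ hη).1 hPT
    have h3 : (n : ℝ) ≤ k := by exact_mod_cast hnk
    have h4 : (2 : ℝ) ≤ n := by exact_mod_cast h
    have h5 : (n : ℝ) * ((n : ℝ) - 1) ≤ (k : ℝ) ^ 2 := by nlinarith
    have h6 : (16 : ℝ) ^ (n - 2) ≤ 16 ^ k := pow_le_pow_right₀ (by norm_num) (by omega)
    have h7 : P ^ (n - 1) = P * P ^ (n - 2) := by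
      rw [← pow_succ']
      congr 1
      omega
    rw [h7, mul_pow]
    have h8 : 0 ≤ P ^ (n - 2) := by positivity
    calc T * ((n : ℝ) * ((n : ℝ) - 1)) * (16 ^ (n - 2) * P ^ (n - 2))
        ≤ T * (k : ℝ) ^ 2 * (16 ^ k * P ^ (n - 2)) := by
          refine mul_le_mul (mul_le_mul_of_nonneg_left h5 hT)
            (mul_le_mul_of_nonneg_right h6 h8) (by positivity) (by positivity)
      _ = (T * (k : ℝ) ^ 2 * 16 ^ k) * P ^ (n - 2) := by ring
      _ ≤ (P * η) * P ^ (n - 2) := mul_le_mul_of_nonneg_right h2 h8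
      _ = _ := by ring

private theorem lo_small' {n k : ℕ} (hn : 1 ≤ n) (hnk : n ≤ k) {c : ℕ → ℝ} {T P η x y : ℝ}
    (hT : 0 ≤ T)
    (hη : 0 < η) (hP : 1 ≤ P) (hPT : T * (k : ℝ) ^ 2 * 16 ^ k / η ≤ P)
    (hc : ∀ i < n, |c i| ≤ T) (hy : 0 ≤ y) (hy2 : y ≤ 16 * P) (hx0 : 0 ≤ x) (hx : x ≤ 16 * P) :
    |lo n c x - lo n c y| ≤ η * P ^ (n - 1) * |x - y| := by
  rcases le_total y x with h | h
  · rw [abs_of_nonneg (show 0 ≤ x - y by linarith)]
    exact lo_small hn hnk hT hη hP hPT hc hy h hx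
  · rw [abs_sub_comm, abs_sub_comm x y, abs_of_nonneg (show 0 ≤ y - x by linarith)]
    exact lo_small hn hnk hT hη hP hPT hc hx0 h hy2

private theorem lo_split {k : ℕ} (hk : 1 ≤ k) (d : ℕ → ℝ) (x : ℝ) :
    lo k d x = lo (k - 1) d x + d (k - 1) * x ^ (k - 1) := by
  obtain ⟨j, rfl⟩ : ∃ j, k = j + 1 := ⟨k - 1, by omega⟩
  unfold lo
  rw [Finset.sum_range_succ, Nat.add_sub_cancel]

/-- the key inequality -/
private theorem ps_key {j : ℕ} (hj : 1 ≤ j) {F E G E' : ℝ → ℝ} {P d δ η α β L1 L2 u u' v v' : ℝ}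
    (hP : 16 ≤ P) (hδ : 0 < δ) (hd : δ ≤ d) (hη : 0 < η) (hη2 : η * (1 + 1 / δ) * 8 ^ j ≤ 1 / 2)
    (hF : ∀ x, F x = x ^ (j + 1) + E x) (hG : ∀ x, G x = d * x ^ j + E' x)
    (hE : ∀ x y, P / 8 ≤ x → x ≤ 16 * P → P / 8 ≤ y → y ≤ 16 * P →
      |E x - E y| ≤ η * P ^ j * |x - y|)
    (hE' : ∀ x y, P / 8 ≤ x → x ≤ 16 * P → P / 8 ≤ y → y ≤ 16 * P →
      |E' x - E' y| ≤ η * P ^ (j - 1) * |x - y|)
    (hL2 : 0 ≤ L2) (hL1 : 0 ≤ L1)
    (hu' : P ≤ u') (huu : u' ≤ u) (hu : u ≤ 16 * P) (hv : P / 8 ≤ v) (hv' : P / 8 ≤ v')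
    (hv1 : v ≤ P / 4) (hv1' : v' ≤ P / 4)
    (h1 : |F u + F v - α| ≤ L1) (h2 : |F u' + F v' - α| ≤ L1)
    (h3 : |G u + G v - β| ≤ L2) (h4 : |G u' + G v' - β| ≤ L2) :
    u - u' ≤ 8 * 8 ^ j * (1 + 1 / δ) * (L1 / P ^ j + L2 / P ^ (j - 1)) := by
  have hP0 : 0 < P := by linarith
  obtain ⟨Q', hQ'⟩ : ∃ Q', Q' = P ^ (j - 1) := ⟨_, rfl⟩
  obtain ⟨Q, hQ⟩ : ∃ Q, Q = P ^ j := ⟨_, rfl⟩
  have hQQ : Q = P * Q' := by
    rw [hQ, hQ', ← pow_succ']
    congr 1
    omega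
  have hQ'0 : 0 < Q' := by rw [hQ']; positivity
  have hQ0 : 0 < Q := by rw [hQ]; positivity
  obtain ⟨S, hS⟩ : ∃ S, S = (u - u') + |v - v'| := ⟨_, rfl⟩
  have hS0 : 0 ≤ S := by
    rw [hS]
    have := abs_nonneg (v - v')
    linarith
  have hSu : u - u' ≤ S := by
    rw [hS]
    have := abs_nonneg (v - v')
    linarith
  have hEu := hE u u' (by linarith) hu (by linarith) (by linarith)
  have hEv := hE v v' hv (by linarith) hv' (by linarith)
  have hEu' := hE' u u' (by linarith) hu (by linarith) (by linarith)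
  have hEv' := hE' v v' hv (by linarith) hv' (by linarith)
  rw [← hQ] at hEu hEv
  rw [← hQ'] at hEu' hEv'
  rw [abs_of_nonneg (show 0 ≤ u - u' by linarith)] at hEu hEu'
  rw [hF, hF] at h1 h2
  rw [hG, hG] at h3 h4
  rw [abs_le] at h1 h2 h3 h4 hEu hEv hEu' hEv'
  -- the two relations
  have hηS : η * Q * (u - u') + η * Q * |v - v'| = η * Q * S := by rw [hS]; ring
  have hηS' : η * Q' * (u - u') + η * Q' * |v - v'| = η * Q' * S := by rw [hS]; ring
  have r1 : (u ^ (j + 1) - u' ^ (j + 1)) - (v' ^ (j + 1) - v ^ (j + 1)) ≤ 2 * L1 + η * Q * S := by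
    linarith [h1.1, h1.2, h2.1, h2.2, hEu.1, hEu.2, hEv.1, hEv.2]
  have r2 : |(u ^ j - u' ^ j) - (v' ^ j - v ^ j)| ≤ (2 * L2 + η * Q' * S) / δ := by
    have h5 : |d * ((u ^ j - u' ^ j) - (v' ^ j - v ^ j))| ≤ 2 * L2 + η * Q' * S := by
      have e1 : d * ((u ^ j - u' ^ j) - (v' ^ j - v ^ j)) =
        d * u ^ j + d * v ^ j - (d * u' ^ j + d * v' ^ j) := by ring
      rw [e1, abs_le]
      constructor <;>
        linarith [h3.1, h3.2, h4.1, h4.2, hEu'.1, hEu'.2, hEv'.1, hEv'.2]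
    rw [abs_mul, abs_of_pos (by linarith : 0 < d)] at h5
    rw [le_div_iff₀ hδ]
    have h6 := mul_le_mul_of_nonneg_right hd (abs_nonneg ((u ^ j - u' ^ j) - (v' ^ j - v ^ j)))
    linarith
  -- increments
  have i1 := ps_inc (show 1 ≤ j + 1 by omega) (c := P / 8) (x := u) (y := u') (by linarith)
    (by linarith) huu
  have i2 := ps_inc hj (c := P / 8) (x := u) (y := u') (by linarith) (by linarith) huu
  rw [Nat.add_sub_cancel] at i1
  have e8 : (P / 8) ^ j * 8 ^ j = Q := by rw [hQ, ← mul_pow]; congr 1; ring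
  have e8' : (P / 8) ^ (j - 1) * 8 ^ j = 8 * Q' := by
    have : (8 : ℝ) ^ j = 8 * 8 ^ (j - 1) := by
      rw [← pow_succ']
      congr 1
      omega
    rw [this, hQ', mul_left_comm, ← mul_pow]
    congr 2
    ring
  have h8 : (1 : ℝ) ≤ 8 ^ j := one_le_pow₀ (by norm_num)
  have hδ1 : 0 < 1 / δ := by positivity
  have hηj : η * 8 ^ j ≤ 1 / 2 := by
    have h9 : η * 8 ^ j * 1 ≤ η * 8 ^ j * (1 + 1 / δ) :=
      mul_le_mul_of_nonneg_left (by linarith) (by positivity)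
    linarith [mul_comm (η * (1 + 1 / δ)) (8 ^ j), mul_right_comm η (1 + 1 / δ) (8 ^ j)]
  obtain ⟨A, hA⟩ : ∃ A, A = L1 / Q := ⟨_, rfl⟩
  obtain ⟨B, hB⟩ : ∃ B, B = L2 / Q' := ⟨_, rfl⟩
  have hLA : L1 = A * Q := by rw [hA]; field_simp
  have hLB : L2 = B * Q' := by rw [hB]; field_simp
  have hA0 : 0 ≤ A := by rw [hA]; positivity
  have hB0 : 0 ≤ B := by rw [hB]; positivity
  rw [← hQ, ← hQ', ← hA, ← hB]
  refine hSu.trans ?_
  rcases le_total v' v with hvv | hvv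
  · -- case A
    have i3 := ps_inc (show 1 ≤ j + 1 by omega) (c := P / 8) (x := v) (y := v') (by linarith)
      (by linarith) hvv
    rw [Nat.add_sub_cancel] at i3
    have hSe : S = (u - u') + (v - v') := by rw [hS, abs_of_nonneg (by linarith)]
    have h9 : (P / 8) ^ j * S ≤ 2 * L1 + η * Q * S := by
      rw [hSe, mul_add]
      rw [hSe, mul_add] at r1
      linarith
    have h10 : Q * S ≤ 8 ^ j * (2 * L1) + (η * 8 ^ j) * (Q * S) := by
      have := mul_le_mul_of_nonneg_left h9 (by positivity : (0 : ℝ) ≤ 8 ^ j)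
      calc Q * S = 8 ^ j * ((P / 8) ^ j * S) := by rw [← e8]; ring
        _ ≤ 8 ^ j * (2 * L1 + η * Q * S) := this
        _ = _ := by ring
    have h11 : (η * 8 ^ j) * (Q * S) ≤ 1 / 2 * (Q * S) :=
      mul_le_mul_of_nonneg_right hηj (by positivity)
    have h12 : Q * S ≤ Q * (4 * 8 ^ j * A) := by
      rw [hLA] at h10
      linarith
    have h13 := le_of_mul_le_mul_left h12 hQ0
    refine h13.trans ?_
    calc 4 * 8 ^ j * A ≤ 8 * 8 ^ j * 1 * (A + B) := by nlinarith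
      _ ≤ _ := by
        refine mul_le_mul_of_nonneg_right ?_ (by linarith)
        exact mul_le_mul_of_nonneg_left (by linarith) (by positivity)
  · -- case B
    have a1 := ps_low j hj 1 (x := u) (y := u') (by linarith) huu
    have a2 := ps_up j hj 1 (x := v') (y := v) (by linarith) hvv
    have i3 := ps_inc hj (c := P / 8) (x := v') (y := v) (by linarith) (by linarith) hvv
    rw [pow_one] at a1 a2
    have hSe : S = (u - u') + (v' - v) := by rw [hS, abs_sub_comm, abs_of_nonneg (by linarith)]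
    obtain ⟨X, hX⟩ : ∃ X, X = u ^ (j + 1) - u' ^ (j + 1) := ⟨_, rfl⟩
    obtain ⟨Y, hY⟩ : ∃ Y, Y = v' ^ (j + 1) - v ^ (j + 1) := ⟨_, rfl⟩
    obtain ⟨x, hx⟩ : ∃ x, x = u ^ j - u' ^ j := ⟨_, rfl⟩
    obtain ⟨y, hy⟩ : ∃ y, y = v' ^ j - v ^ j := ⟨_, rfl⟩
    rw [← hX, ← hY] at r1
    rw [← hx, ← hy] at r2
    rw [← hX, ← hx] at a1
    rw [← hY, ← hy] at a2
    rw [← hx] at i2
    rw [← hy] at i3
    have hx0 : 0 ≤ x := by
      refine le_trans ?_ i2
      exact mul_nonneg (by positivity) (by linarith)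
    have hy0 : 0 ≤ y := by
      refine le_trans ?_ i3
      exact mul_nonneg (by positivity) (by linarith)
    have hj0 : (1 : ℝ) ≤ j := by exact_mod_cast hj
    push_cast at a1 a2
    have b1 : ((j : ℝ) + 1) * (P * x) ≤ j * X := by
      refine le_trans ?_ a1
      refine mul_le_mul_of_nonneg_left (mul_le_mul_of_nonneg_right hu' hx0) (by linarith)
    have b2 : j * Y ≤ ((j : ℝ) + 1) * (P / 4 * y) := by
      refine le_trans a2 ?_
      refine mul_le_mul_of_nonneg_left (mul_le_mul_of_nonneg_right hv1' hy0) (by linarith)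
    have b3 : ((j : ℝ) + 1) * (P * (x - y / 4)) ≤ (j + 1) * (2 * L1 + η * Q * S) := by
      have h9 : j * (X - Y) ≤ j * (2 * L1 + η * Q * S) :=
        mul_le_mul_of_nonneg_left r1 (by linarith)
      have h10 : 0 ≤ 2 * L1 + η * Q * S := by positivity
      linarith
    have b4 := le_of_mul_le_mul_left b3 (by linarith : (0 : ℝ) < (j : ℝ) + 1)
    have b5 : 3 / 8 * (x + y) - 5 / 8 * |x - y| ≤ x - y / 4 := by
      have := neg_abs_le (x - y)
      linarith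
    have b6 : (P / 8) ^ (j - 1) * S ≤ x + y := by
      rw [hSe, mul_add]
      linarith
    have b7 : P * (3 / 8 * ((P / 8) ^ (j - 1) * S)) ≤
        2 * L1 + η * Q * S + P * ((2 * L2 + η * Q' * S) / δ) := by
      have h9 : 0 ≤ |x - y| := abs_nonneg _
      have h10 : 3 / 8 * ((P / 8) ^ (j - 1) * S) ≤ (x - y / 4) + (2 * L2 + η * Q' * S) / δ := by
        linarith
      have h11 := mul_le_mul_of_nonneg_left h10 hP0.le
      rw [mul_add] at h11
      linarith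
    have b8 : 3 * (Q * S) ≤ 8 ^ j * (2 * L1) + (η * 8 ^ j) * (Q * S) +
        8 ^ j * (1 / δ) * (2 * (P * L2)) + (η * (1 / δ) * 8 ^ j) * (Q * S) := by
      have h9 := mul_le_mul_of_nonneg_left b7 (by positivity : (0 : ℝ) ≤ 8 ^ j)
      calc 3 * (Q * S) = 8 ^ j * (P * (3 / 8 * ((P / 8) ^ (j - 1) * S))) := by
            have : 8 ^ j * (P * (3 / 8 * ((P / 8) ^ (j - 1) * S))) =
              3 / 8 * P * S * ((P / 8) ^ (j - 1) * 8 ^ j) := by ring
            rw [this, e8', hQQ]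
            ring
        _ ≤ _ := h9
        _ = _ := by
            rw [hQQ]
            field_simp
            ring
    have b9 : (η * 8 ^ j) * (Q * S) + (η * (1 / δ) * 8 ^ j) * (Q * S) ≤ 1 / 2 * (Q * S) := by
      rw [← add_mul]
      refine mul_le_mul_of_nonneg_right ?_ (by positivity)
      calc η * 8 ^ j + η * (1 / δ) * 8 ^ j = η * (1 + 1 / δ) * 8 ^ j := by ring
        _ ≤ 1 / 2 := hη2
    have b10 : Q * S ≤ Q * (8 ^ j * (2 * A) + 8 ^ j * (1 / δ) * (2 * B)) := by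
      have e9 : P * L2 = B * Q := by rw [hLB, hQQ]; ring
      rw [e9, hLA] at b8
      have h9 : 0 ≤ Q * S := by positivity
      linarith
    have b11 := le_of_mul_le_mul_left b10 hQ0
    refine b11.trans ?_
    have h12 : 0 ≤ 8 ^ j * (1 / δ) := by positivity
    have e10 : 8 * 8 ^ j * (1 + 1 / δ) * (A + B) =
      8 * (8 ^ j * A) + 8 * (8 ^ j * B) + 8 * (8 ^ j * (1 / δ) * A) + 8 * (8 ^ j * (1 / δ) * B) := by
      ring
    rw [e10]
    have h13 : 0 ≤ 8 ^ j * A := by positivity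
    have h14 : 0 ≤ 8 ^ j * B := by positivity
    have h15 : 0 ≤ 8 ^ j * (1 / δ) * A := by positivity
    have h16 : 0 ≤ 8 ^ j * (1 / δ) * B := by positivity
    linarith


private theorem pc_single {k : ℕ} (hk : 2 ≤ k) {W : Finset ℕ} {c : ℕ → ℝ} {T P α L : ℝ}
    (hT : 0 ≤ T) (hP : 1 ≤ P) (hPT : T * (k : ℝ) ^ 2 * 16 ^ k / (1 / (2 * 8 ^ (k - 1))) ≤ P)
    (hc : ∀ i < k, |c i| ≤ T) (hL : 0 ≤ L) (hW : ∀ u ∈ W, P / 8 ≤ (u : ℝ) ∧ (u : ℝ) ≤ 16 * P) :
    cn W (fun u : ℕ => |pl k c u - α| ≤ L) ≤ 1 + 4 * 8 ^ (k - 1) * L / P ^ (k - 1) := by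
  have hP0 : 0 < P := by linarith
  have hpow : 0 < P ^ (k - 1) := pow_pos hP0 _
  refine ps_cn_diam (by positivity) ?_
  intro u hu u' hu' h h' hlt
  have h2 : (u' : ℝ) ≤ u := by exact_mod_cast hlt.le
  obtain ⟨hu1, hu2⟩ := hW u hu
  obtain ⟨hu3, hu4⟩ := hW u' hu'
  have h3 := ps_inc (show 1 ≤ k by omega) (c := P / 8) (by linarith) hu3 h2
  have h4 := lo_small (n := k) (k := k) (by omega) le_rfl hT
    (show (0 : ℝ) < 1 / (2 * 8 ^ (k - 1)) by positivity) hP hPT hc (by linarith : (0 : ℝ) ≤ u') h2 hu2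
  have h5 := abs_le.1 h
  have h6 := abs_le.1 h'
  have h7 := abs_le.1 h4
  rw [le_div_iff₀ hpow]
  unfold pl at h5 h6
  obtain ⟨D, hD⟩ : ∃ D, D = (u : ℝ) - u' := ⟨_, rfl⟩
  rw [← hD] at h3 h7 ⊢
  have hD0 : 0 ≤ D := by rw [hD]; linarith
  obtain ⟨q, hq⟩ : ∃ q : ℝ, q = 8 ^ (k - 1) := ⟨_, rfl⟩
  have hq0 : 0 < q := by rw [hq]; positivity
  have h8 : (P / 8) ^ (k - 1) = P ^ (k - 1) / q := by rw [div_pow, hq]
  rw [h8] at h3
  rw [← hq] at h7 ⊢
  have h9 : P ^ (k - 1) / q * D - 1 / (2 * q) * P ^ (k - 1) * D ≤ 2 * L := by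
    linarith [h5.1, h5.2, h6.1, h6.2, h7.1, h7.2]
  have h10 : P ^ (k - 1) / q * D - 1 / (2 * q) * P ^ (k - 1) * D = D * P ^ (k - 1) / (2 * q) := by
    field_simp
    ring
  rw [h10, div_le_iff₀ (by positivity)] at h9
  linarith

theorem singleC {k : ℕ} (hk : 2 ≤ k) {T : ℝ} (hT : 0 ≤ T) : ∃ C : ℝ, 0 < C ∧ ∃ P0 : ℝ, 16 ≤ P0 ∧
    ∀ P : ℝ, P0 ≤ P → ∀ c : ℕ → ℝ, (∀ i < k, |c i| ≤ T) → ∀ α L : ℝ, 0 ≤ L →
      cn (mainI P) (fun u : ℕ => |pl k c u - α| ≤ L) ≤ 1 + C * L / P ^ (k - 1) := by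
  refine ⟨4 * 8 ^ (k - 1), by positivity,
    max 16 (T * (k : ℝ) ^ 2 * 16 ^ k / (1 / (2 * 8 ^ (k - 1)))), le_max_left _ _, ?_⟩
  intro P hP c hc α L hL
  have hP16 : 16 ≤ P := (le_max_left _ _).trans hP
  have hP0 : 0 < P := by linarith
  exact pc_single hk hT (by linarith) ((le_max_right _ _).trans hP) hc hL (by
    intro u hu
    have := (mem_mainI hP0.le).1 hu
    constructor <;> linarith [this.1, this.2])

theorem singleC_J1 {k : ℕ} (hk : 2 ≤ k) {T : ℝ} (hT : 0 ≤ T) :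
    ∃ C : ℝ, 0 < C ∧ ∃ P0 : ℝ, 16 ≤ P0 ∧
    ∀ P : ℝ, P0 ≤ P → ∀ c : ℕ → ℝ, (∀ i < k, |c i| ≤ T) → ∀ α L : ℝ, 0 ≤ L →
      cn (J1 P) (fun u : ℕ => |pl k c u - α| ≤ L) ≤ 1 + C * L / P ^ (k - 1) := by
  refine ⟨4 * 8 ^ (k - 1), by positivity,
    max 16 (T * (k : ℝ) ^ 2 * 16 ^ k / (1 / (2 * 8 ^ (k - 1)))), le_max_left _ _, ?_⟩
  intro P hP c hc α L hL
  have hP16 : 16 ≤ P := (le_max_left _ _).trans hP
  have hP0 : 0 < P := by linarith
  exact pc_single hk hT (by linarith) ((le_max_right _ _).trans hP) hc hL (by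
    intro u hu
    have := (mem_J1 hP0.le).1 hu
    constructor <;> linarith [this.1, this.2])

/-- the value of the small constant `η` -/
private noncomputable def etaC (k : ℕ) (δ : ℝ) : ℝ := 1 / (2 * (1 + 1 / δ) * 8 ^ (k - 1))

private theorem etaC_pos {k : ℕ} {δ : ℝ} (hδ : 0 < δ) : 0 < etaC k δ := by
  unfold etaC
  positivity

private theorem lo_neg (k : ℕ) (d : ℕ → ℝ) (x : ℝ) : lo k (fun i => -d i) x = -lo k d x := by
  unfold lo
  rw [← Finset.sum_neg_distrib]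
  exact Finset.sum_congr rfl fun i _ => by ring

theorem pairC {k : ℕ} (hk : 2 ≤ k) {T δ : ℝ} (hT : 0 ≤ T) (hδ : 0 < δ) :
    ∃ C : ℝ, 0 < C ∧ ∃ P0 : ℝ, 16 ≤ P0 ∧
    ∀ P : ℝ, P0 ≤ P → ∀ c d : ℕ → ℝ, (∀ i < k, |c i| ≤ T) → (∀ i < k, |d i| ≤ T) →
      δ ≤ |d (k - 1)| → ∀ α β L1 L2 : ℝ, 0 ≤ L1 → 0 ≤ L2 →
      cn (mainI P ×ˢ J1 P) (fun p : ℕ × ℕ => |pl k c p.1 + pl k c p.2 - α| ≤ L1 ∧
        |lo k d p.1 + lo k d p.2 - β| ≤ L2) ≤
      C * (1 + L1 / P ^ (k - 1)) * (1 + L1 / P ^ (k - 1) + L2 / P ^ (k - 1 - 1)) := by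
  classical
  obtain ⟨C1, hC1, P1, hP1, hcnt⟩ := singleC_J1 hk hT
  have hη : 0 < etaC k δ := etaC_pos hδ
  obtain ⟨K, hK⟩ : ∃ K : ℝ, K = 8 * 8 ^ (k - 1) * (1 + 1 / δ) := ⟨_, rfl⟩
  have h8 : (1 : ℝ) ≤ 8 ^ (k - 1) := one_le_pow₀ (by norm_num)
  have hK1 : 1 ≤ K := by
    rw [hK]
    have : 0 < 1 / δ := by positivity
    nlinarith
  refine ⟨K * (1 + C1), by positivity, max P1 (max 16 (T * (k : ℝ) ^ 2 * 16 ^ k / etaC k δ)),
    (le_max_left _ _).trans (le_max_right _ _), ?_⟩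
  intro P hP c d hc hd hdk α β L1 L2 hL1 hL2
  have hPP1 : P1 ≤ P := (le_max_left _ _).trans hP
  have hP16 : 16 ≤ P := (le_max_left _ _).trans ((le_max_right _ _).trans hP)
  have hPT : T * (k : ℝ) ^ 2 * 16 ^ k / etaC k δ ≤ P :=
    (le_max_right _ _).trans ((le_max_right _ _).trans hP)
  have hP0 : 0 < P := by linarith
  have hPk : 0 < P ^ (k - 1) := pow_pos hP0 _
  have hPj : 0 < P ^ (k - 1 - 1) := pow_pos hP0 _
  have hX : 0 ≤ L1 / P ^ (k - 1) := by positivity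
  have hY : 0 ≤ L2 / P ^ (k - 1 - 1) := by positivity
  have hcnt' := hcnt P hPP1 c hc
  -- reduction to a positive top coefficient
  have hred : ∃ (d' : ℕ → ℝ) (β' : ℝ), (∀ i < k, |d' i| ≤ T) ∧ δ ≤ d' (k - 1) ∧
      ∀ x y : ℝ, |lo k d x + lo k d y - β| = |lo k d' x + lo k d' y - β'| := by
    rcases le_total 0 (d (k - 1)) with h | h
    · exact ⟨d, β, hd, by rwa [abs_of_nonneg h] at hdk, fun x y => rfl⟩
    · refine ⟨fun i => -d i, -β, fun i hi => by rw [abs_neg]; exact hd i hi, ?_, fun x y => ?_⟩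
      · rwa [abs_of_nonpos h] at hdk
      · rw [lo_neg, lo_neg, ← abs_neg]
        congr 1
        ring
  obtain ⟨d', β', hd', hdk', hred⟩ := hred
  set S : Finset (ℕ × ℕ) := (mainI P ×ˢ J1 P).filter
    (fun p : ℕ × ℕ => |pl k c p.1 + pl k c p.2 - α| ≤ L1 ∧
        |lo k d p.1 + lo k d p.2 - β| ≤ L2) with hS
  have hcn : cn (mainI P ×ˢ J1 P) (fun p : ℕ × ℕ => |pl k c p.1 + pl k c p.2 - α| ≤ L1 ∧
        |lo k d p.1 + lo k d p.2 - β| ≤ L2) = (S.card : ℝ) := by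
    rw [ps_cn_eq']
  rw [hcn]
  have hSm : ∀ p ∈ S, (p.1 ∈ mainI P ∧ p.2 ∈ J1 P) ∧
      |pl k c p.1 + pl k c p.2 - α| ≤ L1 ∧ |lo k d' p.1 + lo k d' p.2 - β'| ≤ L2 := by
    intro p hp
    have h1 := Finset.mem_filter.1 hp
    rw [← hred]
    exact ⟨Finset.mem_product.1 h1.1, h1.2⟩
  obtain ⟨D, hD⟩ : ∃ D, D = K * (L1 / P ^ (k - 1) + L2 / P ^ (k - 1 - 1)) := ⟨_, rfl⟩
  have hD0 : 0 ≤ D := by
    rw [hD]
    positivity
  obtain ⟨B, hB⟩ : ∃ B, B = 1 + C1 * L1 / P ^ (k - 1) := ⟨_, rfl⟩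
  have hB0 : 0 ≤ B := by
    rw [hB]
    positivity
  have hkk : k - 1 + 1 = k := by omega
  have hF : ((S.image Prod.fst).card : ℝ) ≤ 1 + D := by
    refine ps_card_diam hD0 ?_
    intro u hu u' hu' hlt
    obtain ⟨p, hp, rfl⟩ := Finset.mem_image.1 hu
    obtain ⟨p', hp', rfl⟩ := Finset.mem_image.1 hu'
    obtain ⟨⟨m1, m2⟩, m3, m4⟩ := hSm p hp
    obtain ⟨⟨m1', m2'⟩, m3', m4'⟩ := hSm p' hp'
    have n1 := (mem_mainI hP0.le).1 m1
    have n1' := (mem_mainI hP0.le).1 m1'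
    have n2 := (mem_J1 hP0.le).1 m2
    have n2' := (mem_J1 hP0.le).1 m2'
    rw [hD, hK]
    refine ps_key (j := k - 1) (F := pl k c) (E := lo k c) (G := lo k d') (E' := lo (k - 1) d')
      (d := d' (k - 1)) (η := etaC k δ) (by omega) hP16 hδ hdk' hη ?_ ?_ ?_ ?_ ?_ hL2 hL1 n1'.1.le
      (by exact_mod_cast hlt.le) n1.2 n2.1.le n2'.1.le n2.2 n2'.2 m3 m3' m4 m4'
    · unfold etaC
      apply le_of_eq
      field_simp
    · intro x
      rw [hkk]
      rfl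
    · intro x
      rw [lo_split (by omega) d' x]
      ring
    · intro x y hx1 hx2 hy1 hy2
      exact lo_small' (n := k) (k := k) (by omega) le_rfl hT hη (by linarith) hPT hc
        (by linarith) hy2 (by linarith) hx2
    · intro x y hx1 hx2 hy1 hy2
      exact lo_small' (n := k - 1) (k := k) (by omega) (by omega) hT hη (by linarith) hPT
        (fun i hi => hd' i (by omega)) (by linarith) hy2 (by linarith) hx2
  have hfib : ∀ u ∈ S.image Prod.fst, (((S.filter fun p => p.1 = u).card : ℕ) : ℝ) ≤ B := by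
    intro u _
    have h1 := hcnt' (α - pl k c u) L1 hL1
    rw [ps_cn_eq'] at h1
    rw [hB]
    refine le_trans ?_ h1
    have h2 : (S.filter fun p => p.1 = u).card ≤
        ((J1 P).filter fun v : ℕ => |pl k c v - (α - pl k c u)| ≤ L1).card := by
      refine Finset.card_le_card_of_injOn Prod.snd ?_ ?_
      · intro p hp
        have h3 := Finset.mem_filter.1 (Finset.mem_coe.1 hp)
        obtain ⟨⟨m1, m2⟩, m3, m4⟩ := hSm p h3.1
        refine Finset.mem_coe.2 (Finset.mem_filter.2 ⟨m2, ?_⟩)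
        rw [← h3.2]
        have : pl k c p.2 - (α - pl k c p.1) = pl k c p.1 + pl k c p.2 - α := by ring
        rw [this]
        exact m3
      · intro p hp p' hp' hpp
        have h3 := (Finset.mem_filter.1 (Finset.mem_coe.1 hp)).2
        have h4 := (Finset.mem_filter.1 (Finset.mem_coe.1 hp')).2
        exact Prod.ext (by rw [h3, h4]) hpp
    exact_mod_cast h2
  have hcard : (S.card : ℝ) ≤ (1 + D) * B := by
    have h1 : S.card = ∑ u ∈ S.image Prod.fst, (S.filter fun p => p.1 = u).card :=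
      Finset.card_eq_sum_card_image Prod.fst S
    have h2 : (S.card : ℝ) = ∑ u ∈ S.image Prod.fst, (((S.filter fun p => p.1 = u).card : ℕ) : ℝ) := by
      rw [h1]
      push_cast
      rfl
    rw [h2]
    calc ∑ u ∈ S.image Prod.fst, (((S.filter fun p => p.1 = u).card : ℕ) : ℝ)
        ≤ ∑ u ∈ S.image Prod.fst, B := Finset.sum_le_sum hfib
      _ = ((S.image Prod.fst).card : ℝ) * B := by rw [Finset.sum_const, nsmul_eq_mul]
      _ ≤ (1 + D) * B := mul_le_mul_of_nonneg_right hF hB0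
  have hD1 : 1 + D ≤ K * (1 + L1 / P ^ (k - 1) + L2 / P ^ (k - 1 - 1)) := by
    rw [hD]
    have : K * (1 + L1 / P ^ (k - 1) + L2 / P ^ (k - 1 - 1)) =
      K + K * (L1 / P ^ (k - 1) + L2 / P ^ (k - 1 - 1)) := by ring
    rw [this]
    linarith
  have hB1 : B ≤ (1 + C1) * (1 + L1 / P ^ (k - 1)) := by
    have h1 : B = 1 + C1 * (L1 / P ^ (k - 1)) := by
      rw [hB]
      ring
    rw [h1]
    nlinarith
  calc (S.card : ℝ) ≤ (1 + D) * B := hcard
    _ ≤ (K * (1 + L1 / P ^ (k - 1) + L2 / P ^ (k - 1 - 1))) *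
        ((1 + C1) * (1 + L1 / P ^ (k - 1))) :=
        mul_le_mul hD1 hB1 hB0 (by positivity)
    _ = _ := by ring

end YWar
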