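import Pool.Agent.YWar.DimCv
import Pool.Agent.FWar.FinP1
import Pool.Agent.FWar.ResA
import Pool.Agent.FWar.ResE1

/-!
# YWar.FinCv: integer parts of polynomials on a curve, 4q + 7 terms

The same as `FWar.FinSq` (`Pool/Agent/FWar/FinSq.lean`) for a curve `t ↦ pl k (c t)` on an interval where
the derivative of the coefficient of `x^(k-1)` does not vanish. The exceptional `t` are those with many
near coincidences (`dimCv`) and those for which the coefficient of `x^(k-1)` is not `Dioph`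
(dimension `≤ 3/4`, because this coefficient is a bi-Lipschitz function of `t`).
-/

namespace YWar

open MWg FWar Finset MeasureTheory Filter Topology

private theorem FinCv_good {k : ℕ} (hk : 2 ≤ k) (c : ℕ → ℝ) (n : ℕ) (hn : n ≤ k) :
    Good k (fun x => (x : ℝ) ^ k + ∑ i ∈ range n, c i * (x : ℝ) ^ i) := by
  induction n with
  | zero => simpa using good_pow (by omega : 1 ≤ k)
  | succ n ih =>
    have h1 := good_add_pow (by omega : n < k) (ih (by omega)) (c n)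
    convert h1 using 2
    rw [sum_range_succ]
    ring

private theorem FinCv_grow {k : ℕ} (hk : 2 ≤ k) {α : ℝ} (hα : 0 < α) {h : ℕ → ℝ} (hh : Good k h) :
    Grow k α (fun x => α * h x) := by
  refine ⟨hα, ?_, ?_⟩
  · have h1 := (good_lim (by omega : 1 ≤ k) hh).const_mul α
    rw [mul_one] at h1
    refine h1.congr fun x => ?_
    rw [Real.rpow_natCast, mul_div_assoc]
  · obtain ⟨x0, hx0⟩ := good_step hk hh
    refine ⟨α * (2 * k * 2 ^ (k - 1)), ?_⟩
    filter_upwards [eventually_ge_atTop x0, eventually_ge_atTop 1] with x hx hx1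
    obtain ⟨h1, h2⟩ := hx0 x (x + 1) hx (Nat.le_succ x)
    have hx1' : (1 : ℝ) ≤ x := by exact_mod_cast hx1
    have e1 : (((x + 1 : ℕ) : ℝ) - x) = 1 := by push_cast; ring
    rw [e1, mul_one] at h1 h2
    have e2 : (x : ℝ) ^ ((k : ℝ) - 1) = (x : ℝ) ^ (k - 1) := by
      rw [← Real.rpow_natCast, Nat.cast_sub (by omega : 1 ≤ k), Nat.cast_one]
    have h3 : (((x + 1 : ℕ) : ℝ)) ^ (k - 1) ≤ (2 * (x : ℝ)) ^ (k - 1) := by
      apply pow_le_pow_left₀ (by positivity)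
      push_cast
      linarith
    rw [mul_pow] at h3
    have h4 : (0 : ℝ) ≤ (x : ℝ) ^ (k - 1) := by positivity
    refine ⟨?_, ?_⟩
    · rw [← mul_sub]
      exact mul_nonneg hα.le (by linarith)
    · rw [← mul_sub, e2, mul_assoc α]
      apply mul_le_mul_of_nonneg_left _ hα.le
      calc h (x + 1) - h x ≤ 2 * k * ((x + 1 : ℕ) : ℝ) ^ (k - 1) := h2
        _ ≤ 2 * k * (2 ^ (k - 1) * (x : ℝ) ^ (k - 1)) :=
            mul_le_mul_of_nonneg_left h3 (by positivity)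
        _ = 2 * k * 2 ^ (k - 1) * (x : ℝ) ^ (k - 1) := by ring

private theorem FinCv_rs_mul (c : ℝ) (h : ℕ → ℝ) (l : List ℕ) :
    rs (fun x => c * h x) l = c * rs h l := by
  induction l with
  | nil => simp [rs]
  | cons a l ih => rw [rs_cons, rs_cons, ih]; ring

private theorem FinCv_S {k : ℕ} (q : ℕ) (hk : 2 ≤ k) {α : ℝ} (hα : 0 < α) {h : ℕ → ℝ} (hh : Good k h) :
    ∀ᶠ r : ℕ in atTop, ∀ w ∈ tl (nxt k) 1 q (XX r),
      |rs (fun x => α * h x) w| ≤ α * (XX r) ^ (k : ℝ) / 4 := by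
  obtain ⟨C, hC, P0, hP0, hb⟩ := mix_rs_bound hk hh q
  have hlim := good_lim (by omega : 1 ≤ k) hh
  have h1 : ∀ᶠ x : ℕ in atTop, h x / (x : ℝ) ^ k < 3 / 2 :=
    hlim.eventually (gt_mem_nhds (by norm_num))
  have h2 : ∀ᶠ x : ℕ in atTop, (-(3 / 2) : ℝ) < h x / (x : ℝ) ^ k :=
    hlim.eventually (lt_mem_nhds (by norm_num))
  obtain ⟨x0, hx0⟩ := eventually_atTop.1 (h1.and h2)
  have hn := (nxt_tendsto hk).comp XX_tendsto
  filter_upwards [hn.eventually_ge_atTop P0, XX_tendsto.eventually_ge_atTop (8 * (x0 : ℝ) + 8),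
    XX_tendsto.eventually_ge_atTop (16 * (C * (k * 16 ^ k)))] with r hr1 hr2 hr3 w hw
  have hP0' : 0 < XX r := XX_pos r
  unfold tl at hw
  obtain ⟨⟨v, w'⟩, hvw, rfl⟩ := Finset.mem_image.1 hw
  obtain ⟨hv, hw'⟩ := Finset.mem_product.1 hvw
  dsimp only at hv hw' ⊢
  rw [mem_J1 hP0'.le] at hv
  have hv0 : (x0 : ℝ) + 1 < v := by linarith
  have hv1 : x0 ≤ v := by
    have : (x0 : ℝ) ≤ v := by linarith
    exact_mod_cast this
  have hvpos : (0 : ℝ) < v := by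
    have := Nat.cast_nonneg (α := ℝ) x0
    linarith
  obtain ⟨h3, h4⟩ := hx0 v hv1
  have hvk : (0 : ℝ) < (v : ℝ) ^ k := by positivity
  rw [div_lt_iff₀ hvk] at h3
  rw [lt_div_iff₀ hvk] at h4
  have h5 : |h v| ≤ 3 / 2 * (v : ℝ) ^ k := abs_le.2 ⟨by linarith, by linarith⟩
  have h6 : (v : ℝ) ^ k ≤ (XX r / 4) ^ k := pow_le_pow_left₀ hvpos.le hv.2 k
  have h7 : (XX r / 4) ^ k ≤ (XX r) ^ k / 16 := by
    rw [div_pow]
    apply div_le_div_of_nonneg_left (by positivity) (by norm_num)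
    calc (16 : ℝ) = 4 ^ 2 := by norm_num
      _ ≤ 4 ^ k := pow_le_pow_right₀ (by norm_num) hk
  have h8 := hb (nxt k (XX r)) hr1 w' hw'
  rw [nxt_pow (by omega : 1 ≤ k) hP0'.le] at h8
  have h9 : C * (k * 16 ^ k * (XX r) ^ (k - 1)) ≤ (XX r) ^ k / 16 := by
    have h10 : (XX r) ^ k = XX r * (XX r) ^ (k - 1) := by
      rw [← pow_succ']
      congr 1
      omega
    have h11 : (0 : ℝ) ≤ (XX r) ^ (k - 1) := by positivity
    have h12 := mul_le_mul_of_nonneg_right hr3 h11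
    rw [h10]
    linarith
  rw [FinCv_rs_mul, abs_mul, abs_of_pos hα, Real.rpow_natCast, rs_cons, mul_div_assoc]
  apply mul_le_mul_of_nonneg_left _ hα.le
  have h13 := abs_add_le (h v) (rs h w')
  have h14 : (0 : ℝ) ≤ (XX r) ^ k := by positivity
  linarith

private theorem FinCv_union {A B : Set ℝ} {a b : ℝ} (hA : dimH A ≤ ENNReal.ofReal a)
    (hB : dimH B ≤ ENNReal.ofReal b) : dimH (A ∪ B) ≤ ENNReal.ofReal (max a b) := by
  rw [dimH_union]
  exact max_le (hA.trans (ENNReal.ofReal_le_ofReal (le_max_left _ _)))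
    (hB.trans (ENNReal.ofReal_le_ofReal (le_max_right _ _)))


private theorem FinCv_anti {f f' : ℝ → ℝ} {a b δ0 : ℝ} (hδ0 : 0 < δ0)
    (hf : ∀ t, HasDerivAt f (f' t) t) (hlow : ∀ t ∈ Set.Icc a b, δ0 ≤ |f' t|) :
    ∀ x ∈ Set.Icc a b, ∀ y ∈ Set.Icc a b, δ0 * |x - y| ≤ |f x - f y| := by
  have hlt : ∀ x ∈ Set.Icc a b, ∀ y ∈ Set.Icc a b, x < y → δ0 * |x - y| ≤ |f x - f y| := by
    intro x hx y hy hxy
    obtain ⟨z, hz, hz2⟩ := exists_hasDerivAt_eq_slope f f' hxy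
      (fun t _ => (hf t).continuousAt.continuousWithinAt) (fun t _ => hf t)
    have h1 := hlow z ⟨by linarith [hx.1, hz.1], by linarith [hy.2, hz.2]⟩
    have h2 : f y - f x = f' z * (y - x) := by
      rw [hz2]
      field_simp [(by linarith : y - x ≠ 0)]
    rw [abs_sub_comm (f x), h2, abs_mul, abs_sub_comm x]
    exact mul_le_mul_of_nonneg_right h1 (abs_nonneg _)
  intro x hx y hy
  rcases lt_trichotomy x y with h | h | h
  · exact hlt x hx y hy h
  · rw [h]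
    simp
  · rw [abs_sub_comm, abs_sub_comm (f x)]
    exact hlt y hy x hx h

private theorem FinCv_dioph {f f' : ℝ → ℝ} {a b δ0 : ℝ} (hδ0 : 0 < δ0)
    (hf : ∀ t, HasDerivAt f (f' t) t) (hlow : ∀ t ∈ Set.Icc a b, δ0 ≤ |f' t|) :
    dimH {t : ℝ | t ∈ Set.Icc a b ∧ ¬ Dioph (f t)} ≤ ENNReal.ofReal (3 / 4) := by
  have h0 : dimH {y : ℝ | ¬ Dioph y} ≤ ENNReal.ofReal (3 / 4) := by
    have h := dim_dioph_affine (b := 0) (c := 1) one_ne_zero
    simpa using h
  have hanti := FinCv_anti hδ0 hf hlow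
  obtain ⟨F, hF⟩ : ∃ F : Set.Icc a b → ℝ, F = fun t : Set.Icc a b => f t.1 := ⟨_, rfl⟩
  have hA : AntilipschitzWith (⟨1 / δ0, by positivity⟩ : NNReal) F := by
    refine AntilipschitzWith.of_le_mul_dist fun x y => ?_
    rw [hF]
    show dist (x : ℝ) (y : ℝ) ≤ (1 / δ0) * dist (f x) (f y)
    rw [Real.dist_eq, Real.dist_eq]
    have := hanti x x.2 y y.2
    rw [one_div, ← div_eq_inv_mul, le_div_iff₀ hδ0]
    linarith
  have himg : {t : ℝ | t ∈ Set.Icc a b ∧ ¬ Dioph (f t)} =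
      Subtype.val '' (F ⁻¹' {y : ℝ | ¬ Dioph y}) := by
    ext t
    constructor
    · rintro ⟨ht, h⟩
      exact ⟨⟨t, ht⟩, by rw [hF]; exact h, rfl⟩
    · rintro ⟨⟨s, hs⟩, h, rfl⟩
      rw [hF] at h
      exact ⟨hs, h⟩
  rw [himg, isometry_subtype_coe.dimH_image]
  exact (hA.dimH_preimage_le _).trans h0

private theorem FinCv_pl_good {k : ℕ} (hk : 2 ≤ k) (c : ℕ → ℝ) : Good k (fun x : ℕ => pl k c x) :=
  FinCv_good hk c k le_rfl

theorem floor_curve_q {k q : ℕ} (hk : 2 ≤ k) (hq : (1 - 1 / (k : ℝ)) ^ (q + 1) ≤ 1 / 2) :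
    ∃ d : ℝ, d < 1 ∧ ∀ {c c1 c2 : ℕ → ℝ → ℝ},
    (∀ i < k, ∀ t, HasDerivAt (c i) (c1 i t) t) → (∀ i < k, ∀ t, HasDerivAt (c1 i) (c2 i t) t) →
    ∀ {a b T δ0 : ℝ}, a ≤ b → 0 ≤ T → 0 < δ0 → (∀ i < k, ∀ t ∈ Set.Icc a b, |c i t| ≤ T) →
    (∀ i < k, ∀ t ∈ Set.Icc a b, |c1 i t| ≤ T) → (∀ i < k, ∀ t ∈ Set.Icc a b, |c2 i t| ≤ T) →
    (∀ t ∈ Set.Icc a b, δ0 ≤ |c1 (k - 1) t|) →
    dimH {t : ℝ | t ∈ Set.Icc a b ∧ ¬ ∀ α : ℝ, 0 < α →
      FloorP (fun x => α * pl k (fun i => c i t) x) (4 * q + 7)} ≤ ENNReal.ofReal d := by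
  obtain ⟨σ, hσ, hW⟩ := weylP hk
  obtain ⟨ε, hεdef⟩ : ∃ ε : ℝ, ε = min (σ / 8) 1 := ⟨_, rfl⟩
  have hε : 0 < ε := by rw [hεdef]; exact lt_min (by linarith) one_pos
  have hε8 : ε ≤ σ / 8 := by rw [hεdef]; exact min_le_left _ _
  have hε1 : ε ≤ 1 := by rw [hεdef]; exact min_le_right _ _
  have hkR : (2 : ℝ) ≤ k := by exact_mod_cast hk
  refine ⟨max (3 / 4) (1 - ε / (4 * k)), max_lt (by norm_num) ?_, ?_⟩
  · have : 0 < ε / (4 * k) := by positivity
    linarith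
  intro c c1 c2 h1 h2 a b T δ0 hab hT hδ0 hb0 hb1 hb2 hlow
  have hA := dimCv hk hq h1 h2 hab hT hδ0 hb0 hb1 hb2 hlow hε hε1
  have hD : dimH {t : ℝ | t ∈ Set.Icc a b ∧ ¬ Dioph (c (k - 1) t)} ≤ ENNReal.ofReal (3 / 4) :=
    FinCv_dioph hδ0 (h1 (k - 1) (by omega)) hlow
  have hsub := FinCv_union hD hA
  refine (dimH_mono ?_).trans hsub
  rintro t ⟨htab, ht⟩
  by_contra hcon
  rw [Set.mem_union, not_or] at hcon
  obtain ⟨hD1, hA1⟩ := hcon
  have htD : Dioph (c (k - 1) t) := by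
    by_contra h
    exact hD1 ⟨htab, h⟩
  have htA : ∀ M : ℝ, ∀ᶠ r : ℕ in atTop,
      pairs (mix (nxt k) 1 (q + 1) (XX r)) (fun p =>
        |rs (fun x : ℕ => pl k (fun i => c i t) x) p.1 -
          rs (fun x : ℕ => pl k (fun i => c i t) x) p.2| ≤ M) ≤
      (XX r) ^ (σ / 8) * ((mix (nxt k) 1 (q + 1) (XX r)).card : ℝ) ^ 2 / (XX r) ^ k := by
    intro M
    have h1 : ¬ ∃ᶠ r : ℕ in atTop,
      (XX r) ^ ε * ((mix (nxt k) 1 (q + 1) (XX r)).card : ℝ) ^ 2 / (XX r) ^ k <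
      pairs (mix (nxt k) 1 (q + 1) (XX r)) (fun p =>
        |rs (fun x : ℕ => pl k (fun i => c i t) x) p.1 -
          rs (fun x : ℕ => pl k (fun i => c i t) x) p.2| ≤ M) :=
      fun h => hA1 ⟨htab, M, h⟩
    rw [not_frequently] at h1
    filter_upwards [h1] with r hr
    refine (not_lt.1 hr).trans ?_
    have hX1 : 1 ≤ XX r := by
      unfold XX
      exact one_le_pow₀ (by norm_num)
    have hX0 := XX_pos r
    have h2 : (XX r) ^ ε ≤ (XX r) ^ (σ / 8) := Real.rpow_le_rpow_of_exponent_le hX1 hε8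
    have h3 : (0 : ℝ) ≤ ((mix (nxt k) 1 (q + 1) (XX r)).card : ℝ) ^ 2 := by positivity
    exact div_le_div_of_nonneg_right (mul_le_mul_of_nonneg_right h2 h3) (by positivity)
  refine ht fun α hα => ?_
  obtain ⟨C, hC⟩ : ∃ C : ℕ → ℝ, C = fun i => c i t := ⟨_, rfl⟩
  have hCk : C (k - 1) = c (k - 1) t := by rw [hC]
  rw [← hC] at htA ⊢
  rw [← hCk] at htD
  have hh := FinCv_pl_good hk C
  have key := floor_basis1 (κ := (k : ℝ)) (α := α) (σ := σ)
    (f := fun x : ℕ => α * pl k C x)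
    (d := 2 * q + 1 + 1) (W := fun r => tl (nxt k) 1 q (XX r))
    (by linarith) hσ (FinCv_grow hk hα hh) ?_ (fun r => tl_len le_rfl q (XX r))
    (fun r => tl_pos q (XX r)) ?_ (FinCv_S q hk hα hh) ?_
  · obtain ⟨N0, hN0⟩ := key
    refine ⟨N0, fun N hN => ?_⟩
    obtain ⟨l, hl1, hl2, hl3⟩ := hN0 N hN
    exact ⟨l, by omega, hl2, hl3⟩
  · -- Weyl
    obtain ⟨g, hgdef⟩ : ∃ g : Polynomial ℝ, g = ∑ i ∈ range k,
      Polynomial.C (α * C i) * Polynomial.X ^ i := ⟨_, rfl⟩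
    have hg' : g.natDegree < k := by
      have h1 : g.natDegree ≤ k - 1 := by
        rw [hgdef]
        refine Polynomial.natDegree_sum_le_of_forall_le _ _ fun i hi => ?_
        refine (Polynomial.natDegree_C_mul_X_pow_le _ _).trans ?_
        have := Finset.mem_range.1 hi
        omega
      omega
    have hc' : g.coeff (k - 1) / α = C (k - 1) := by
      have h1 : g.coeff (k - 1) = α * C (k - 1) := by
        rw [hgdef, Polynomial.finsetSum_coeff]
        simp only [Polynomial.coeff_C_mul_X_pow]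
        rw [Finset.sum_ite_eq (range k) (k - 1) (fun i => α * C i)]
        rw [if_pos (Finset.mem_range.2 (by omega))]
      rw [h1]
      field_simp
    have h1 := hW α g hα hg' (by rw [hc']; exact htD)
    filter_upwards [h1] with r hr θ hθ1 hθ2
    have h2 := hr θ hθ1 hθ2
    refine le_trans (le_of_eq ?_) h2
    congr 1
    refine sum_congr rfl fun z _ => ?_
    congr 2
    unfold pl lo
    rw [hgdef, Polynomial.eval_finsetSum, mul_add, mul_sum]
    congr 1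
    refine sum_congr rfl fun i _ => ?_
    rw [Polynomial.eval_mul, Polynomial.eval_C, Polynomial.eval_pow, Polynomial.eval_X]
    ring
  · -- nonempty
    have h1 : ∀ i : ℕ, ∀ᶠ r : ℕ in atTop, 16 ≤ (nxt k)^[i] (nxt k (XX r)) := by
      intro i
      have h2 := ((nxt_iter_tendsto hk i).comp (nxt_tendsto hk)).comp XX_tendsto
      exact h2.eventually_ge_atTop 16
    have h3 : ∀ᶠ r : ℕ in atTop, ∀ i ∈ Set.Iic q, 16 ≤ (nxt k)^[i] (nxt k (XX r)) := by
      rw [eventually_all_finite (Set.finite_Iic _)]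
      exact fun i _ => h1 i
    filter_upwards [h3, XX_tendsto.eventually_ge_atTop 16] with r hr hr2
    exact tl_nonempty q (XX r) hr2 fun i hi => hr i hi
  · -- coincidences
    have h1 := htA ((((2 * q + 1 + 1 : ℕ) : ℝ) + 1) / α)
    filter_upwards [h1] with r hr
    have h2 := pairs_tl (nxt k) 1 q (XX r)
      (fun l l' => |rs (fun x : ℕ => α * pl k C x) l -
        rs (fun x : ℕ => α * pl k C x) l'| ≤ ((2 * q + 1 + 1 : ℕ) : ℝ) + 1)
    simp only [rs_cons] at h2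
    rw [h2, card_tl, Real.rpow_natCast]
    refine le_trans (pairs_mono _ ?_) hr
    intro w _ w' _ hww
    dsimp only at hww ⊢
    rw [FinCv_rs_mul α (fun x : ℕ => pl k C x), FinCv_rs_mul α (fun x : ℕ => pl k C x),
      ← mul_sub, abs_mul, abs_of_pos hα] at hww
    rwa [le_div_iff₀' hα]

end YWar
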