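import Pool.Agent.YWar.MixC
import Pool.Agent.FWar.AvgN
import Pool.Agent.FWar.DimC

/-!
# YWar.DimCv: dimension of the set of parameters with many near coincidences, curves of polynomials

The same as `FWar.DimSq` for a curve `t ↦ pl k (c t)` of monic polynomials of degree `k` with twice
differentiable coefficients, on an interval `[a, b]` on which the coefficients and their first two
derivatives are bounded and the derivative of the coefficient of `x^(k-1)` is bounded away from `0`.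
-/

namespace YWar

open MWg FWar Finset MeasureTheory Filter Topology

private theorem DimCv_tau_sq {k q : ℕ} (hk : 2 ≤ k)
    (hq : (1 - 1 / (k : ℝ)) ^ q ≤ 1 / 2) : ∃ C : ℝ, 1 ≤ C ∧ ∀ P : ℝ, 1 ≤ P →
    (((nxt k)^[q] P) ^ (k - 1)) ^ 2 ≤ C * P ^ (k - 1) := by
  obtain ⟨C, hC, h⟩ := nxt_iter_pow_le (show 1 ≤ k by omega) q
  refine ⟨(max C 1) ^ 2, one_le_pow₀ (le_max_right _ _), fun P hP => ?_⟩
  obtain ⟨D, hD⟩ : ∃ D, D = max C 1 := ⟨_, rfl⟩
  have hD1 : 1 ≤ D := by rw [hD]; exact le_max_right _ _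
  have hCD : C ≤ D := by rw [hD]; exact le_max_left _ _
  rw [← hD]
  have h1 := h P hP
  have hy1 : 1 ≤ (nxt k)^[q] P := nxt_iter_ge_one (by omega) q hP
  generalize (nxt k)^[q] P = y at h1 hy1 ⊢
  have hkR : (2 : ℝ) ≤ k := by exact_mod_cast hk
  have h2 : P ^ ((k : ℝ) * (1 - 1 / (k : ℝ)) ^ q) ≤ P ^ ((k : ℝ) * (1 / 2)) :=
    Real.rpow_le_rpow_of_exponent_le hP
      (mul_le_mul_of_nonneg_left hq (by linarith))
  have h3 : (P ^ ((k : ℝ) * (1 / 2))) ^ 2 = P ^ k := by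
    rw [← Real.rpow_natCast, ← Real.rpow_mul (by linarith)]
    rw [show (k : ℝ) * (1 / 2) * ((2 : ℕ) : ℝ) = ((k : ℕ) : ℝ) by push_cast; ring,
      Real.rpow_natCast]
  have h4 : y ^ k ≤ D * P ^ ((k : ℝ) * (1 / 2)) := by
    refine h1.trans ?_
    refine mul_le_mul hCD h2 (Real.rpow_nonneg (by linarith) _) (by linarith)
  have h5 : (y ^ k) ^ 2 ≤ D ^ 2 * P ^ k := by
    calc (y ^ k) ^ 2 ≤ (D * P ^ ((k : ℝ) * (1 / 2))) ^ 2 :=
          pow_le_pow_left₀ (by positivity) h4 2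
      _ = D ^ 2 * P ^ k := by rw [mul_pow, h3]
  have h6 : ((y ^ (k - 1)) ^ 2) ^ k ≤ (D ^ 2 * P ^ (k - 1)) ^ k := by
    calc ((y ^ (k - 1)) ^ 2) ^ k = ((y ^ k) ^ 2) ^ (k - 1) := by
          rw [← pow_mul, ← pow_mul, ← pow_mul, ← pow_mul]
          congr 1
          ring
      _ ≤ (D ^ 2 * P ^ k) ^ (k - 1) := pow_le_pow_left₀ (by positivity) h5 _
      _ = (D ^ 2) ^ (k - 1) * (P ^ (k - 1)) ^ k := by
          rw [mul_pow, ← pow_mul P k (k - 1), ← pow_mul P (k - 1) k, mul_comm k (k - 1)]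
      _ ≤ (D ^ 2) ^ k * (P ^ (k - 1)) ^ k :=
          mul_le_mul_of_nonneg_right
            (pow_le_pow_right₀ (one_le_pow₀ hD1) (by omega)) (by positivity)
      _ = _ := by rw [mul_pow]
  exact le_of_pow_le_pow_left₀ (by omega) (by positivity) h6

private theorem DimCv_XX_rpow (r : ℕ) (δ : ℝ) : (XX r) ^ δ = ((2 : ℝ) ^ δ) ^ r := by
  unfold XX
  rw [← Real.rpow_natCast, ← Real.rpow_natCast, ← Real.rpow_mul (by norm_num),
    ← Real.rpow_mul (by norm_num), mul_comm]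

private theorem DimCv_lin_le (C : ℝ) (hC : 0 < C) {δ : ℝ} (hδ : 0 < δ) :
    ∀ᶠ r : ℕ in atTop, C * ((r : ℝ) + 1) ≤ (XX r) ^ δ := by
  have hb : (1 : ℝ) < (2 : ℝ) ^ δ := Real.one_lt_rpow (by norm_num) hδ
  have h1 := tendsto_pow_const_div_const_pow_of_one_lt 1 hb
  have h2 : ∀ᶠ n : ℕ in atTop, (n : ℝ) ^ 1 / ((2 : ℝ) ^ δ) ^ n < 1 / (2 * C) :=
    h1.eventually_lt_const (by positivity)
  filter_upwards [h2, eventually_ge_atTop 1] with r hr hr1
  rw [DimCv_XX_rpow]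
  have hr2 : (1 : ℝ) ≤ r := by exact_mod_cast hr1
  have hp : 0 < ((2 : ℝ) ^ δ) ^ r := by positivity
  rw [pow_one, div_lt_div_iff₀ hp (by positivity)] at hr
  nlinarith

private theorem DimCv_one_le_XX (r : ℕ) : 1 ≤ XX r := by
  unfold XX
  exact one_le_pow₀ (by norm_num)

private theorem DimCv_card_ev {k : ℕ} (hk : 2 ≤ k) (q : ℕ) : ∀ᶠ r : ℕ in atTop,
    0 < ((mix (nxt k) 1 q (XX r)).card : ℝ) := by
  have h1 : ∀ᶠ r : ℕ in atTop, ∀ i ∈ Finset.range (q + 1), 16 ≤ (nxt k)^[i] (XX r) := by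
    rw [Filter.eventually_all_finset]
    intro i _
    exact ((nxt_iter_tendsto hk i).comp XX_tendsto).eventually_ge_atTop 16
  filter_upwards [h1] with r hr
  exact mix_card_pos q (XX r) fun i hi => hr i (Finset.mem_range.2 (by omega))


private theorem DimCv_lo {k : ℕ} {c c1 : ℕ → ℝ → ℝ} (h1 : ∀ i < k, ∀ t, HasDerivAt (c i) (c1 i t) t)
    (x : ℝ) (t : ℝ) : HasDerivAt (fun t => lo k (fun i => c i t) x) (lo k (fun i => c1 i t) x) t := by
  unfold lo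
  refine HasDerivAt.fun_sum fun i hi => ?_
  exact (h1 i (Finset.mem_range.1 hi) t).mul_const _

private theorem DimCv_rs {F F' : ℝ → ℕ → ℝ} (hF : ∀ x t, HasDerivAt (fun t => F t x) (F' t x) t)
    (l : List ℕ) (t : ℝ) : HasDerivAt (fun t => rs (F t) l) (rs (F' t) l) t := by
  induction l with
  | nil =>
    have e : (fun t : ℝ => rs (F t) []) = fun _ => (0 : ℝ) := by
      funext b
      simp [rs]
    rw [e]
    have e2 : rs (F' t) [] = 0 := by simp [rs]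
    rw [e2]
    exact hasDerivAt_const _ _
  | cons u l ih =>
    have e : (fun t : ℝ => rs (F t) (u :: l)) = fun t : ℝ => F t u + rs (F t) l := by
      funext b
      exact rs_cons _ u l
    rw [e, rs_cons]
    exact (hF u t).add ih

private theorem DimCv_pl {k : ℕ} {c c1 : ℕ → ℝ → ℝ} (h1 : ∀ i < k, ∀ t, HasDerivAt (c i) (c1 i t) t)
    (l l' : List ℕ) (t : ℝ) :
    HasDerivAt (fun t => rs (fun x : ℕ => pl k (fun i => c i t) x) l -
      rs (fun x : ℕ => pl k (fun i => c i t) x) l')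
      (rs (fun x : ℕ => lo k (fun i => c1 i t) x) l - rs (fun x : ℕ => lo k (fun i => c1 i t) x) l')
      t := by
  have h2 : ∀ (x : ℕ) (t : ℝ), HasDerivAt (fun t => pl k (fun i => c i t) (x : ℝ))
      (lo k (fun i => c1 i t) (x : ℝ)) t := by
    intro x t
    unfold pl
    exact (DimCv_lo h1 (x : ℝ) t).const_add _
  exact (DimCv_rs (F := fun t (x : ℕ) => pl k (fun i => c i t) x)
    (F' := fun t (x : ℕ) => lo k (fun i => c1 i t) x) h2 l t).sub
    (DimCv_rs (F := fun t (x : ℕ) => pl k (fun i => c i t) x)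
    (F' := fun t (x : ℕ) => lo k (fun i => c1 i t) x) h2 l' t)

private theorem DimCv_lo2 {k : ℕ} {c c1 : ℕ → ℝ → ℝ} (h1 : ∀ i < k, ∀ t, HasDerivAt (c i) (c1 i t) t)
    (l l' : List ℕ) (t : ℝ) :
    HasDerivAt (fun t => rs (fun x : ℕ => lo k (fun i => c i t) x) l -
      rs (fun x : ℕ => lo k (fun i => c i t) x) l')
      (rs (fun x : ℕ => lo k (fun i => c1 i t) x) l - rs (fun x : ℕ => lo k (fun i => c1 i t) x) l')
      t := by
  have h2 : ∀ (x : ℕ) (t : ℝ), HasDerivAt (fun t => lo k (fun i => c i t) (x : ℝ))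
      (lo k (fun i => c1 i t) (x : ℝ)) t := fun x t => DimCv_lo h1 (x : ℝ) t
  exact (DimCv_rs (F := fun t (x : ℕ) => lo k (fun i => c i t) x)
    (F' := fun t (x : ℕ) => lo k (fun i => c1 i t) x) h2 l t).sub
    (DimCv_rs (F := fun t (x : ℕ) => lo k (fun i => c i t) x)
    (F' := fun t (x : ℕ) => lo k (fun i => c1 i t) x) h2 l' t)

/-- mean value inequality -/
private theorem DimCv_mv {g g' : ℝ → ℝ} {a b L : ℝ}
    (hg : ∀ x, HasDerivAt g (g' x) x) (hb : ∀ x ∈ Set.Icc a b, |g' x| ≤ L) :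
    ∀ x ∈ Set.Icc a b, ∀ y ∈ Set.Icc a b, |g x - g y| ≤ L * |x - y| := by
  intro x hx y hy
  have h := Convex.norm_image_sub_le_of_norm_hasDerivWithin_le (f := g) (f' := g')
    (s := Set.Icc a b) (C := L) (x := y) (y := x)
    (fun z _ => (hg z).hasDerivWithinAt) (fun z hz => by
      rw [Real.norm_eq_abs]
      exact hb z hz) (convex_Icc a b) hy hx
  rwa [Real.norm_eq_abs, Real.norm_eq_abs] at h

private theorem DimCv_avg_bound {k q : ℕ} (hk : 2 ≤ k)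
    (hq : (1 - 1 / (k : ℝ)) ^ q ≤ 1 / 2) {c c1 c2 : ℕ → ℝ → ℝ}
    (h1 : ∀ i < k, ∀ t, HasDerivAt (c i) (c1 i t) t)
    (h2 : ∀ i < k, ∀ t, HasDerivAt (c1 i) (c2 i t) t) {a b T δ0 : ℝ} (hab : a ≤ b)
    (hT : 0 ≤ T) (hδ0 : 0 < δ0) (hb0 : ∀ i < k, ∀ t ∈ Set.Icc a b, |c i t| ≤ T)
    (hb1 : ∀ i < k, ∀ t ∈ Set.Icc a b, |c1 i t| ≤ T)
    (hb2 : ∀ i < k, ∀ t ∈ Set.Icc a b, |c2 i t| ≤ T)
    (hlow : ∀ t ∈ Set.Icc a b, δ0 ≤ |c1 (k - 1) t|) (M0 : ℝ)
    (hM0 : 1 ≤ M0) {δ : ℝ} (hδ : 0 < δ) :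
    ∀ᶠ r : ℕ in atTop,
      ∑ i ∈ (mix (nxt k) 1 q (XX r)) ×ˢ (mix (nxt k) 1 q (XX r)),
        (volume {t : ℝ | t ∈ Set.Icc a b ∧
          |rs (fun x : ℕ => pl k (fun i => c i t) x) i.1 -
            rs (fun x : ℕ => pl k (fun i => c i t) x) i.2| ≤ M0}).toReal ≤
      (XX r) ^ δ * (((mix (nxt k) 1 q (XX r)).card : ℝ) ^ 2 / (XX r) ^ k) := by
  obtain ⟨C1, hC1, P1, hP1, hAB⟩ := mixC_AB hk hT hδ0 q
  obtain ⟨C2, hC2, P2, hP2, hpw⟩ := mixC_lo (n := k) hk (by omega) hT q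
  obtain ⟨C0, hC0, hτ⟩ := DimCv_tau_sq hk hq
  have hkR : (2 : ℝ) ≤ k := by exact_mod_cast hk
  have hba : 0 ≤ b - a := by linarith
  obtain ⟨CL, hCL⟩ : ∃ CL, CL = max C0 (2 * C2) := ⟨_, rfl⟩
  have hCL0 : C0 ≤ CL := by rw [hCL]; exact le_max_left _ _
  have hCL2 : 2 * C2 ≤ CL := by
    rw [hCL]
    exact le_max_right _ _
  have hCL1 : 1 ≤ CL := hC0.trans hCL0
  obtain ⟨c', hc⟩ := pow_unbounded_of_one_lt CL (show (1 : ℝ) < 2 by norm_num)
  obtain ⟨Z, hZ⟩ : ∃ Z : ℝ, Z = C1 * (M0 + 3) ^ 2 := ⟨_, rfl⟩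
  have hZ0 : 0 < Z := by rw [hZ]; positivity
  obtain ⟨C3, hC3⟩ : ∃ C3 : ℝ, C3 = Z * ((b - a) * C0 + 8 * (k + c') * CL * M0 * (1 + (b - a))) :=
    ⟨_, rfl⟩
  have hC3p : 0 < C3 := by
    rw [hC3]
    have h3 : 0 ≤ (b - a) * C0 := by positivity
    have h4 : 0 < 8 * ((k : ℝ) + c') * CL * M0 * (1 + (b - a)) := by positivity
    exact mul_pos hZ0 (by linarith)
  filter_upwards [DimCv_lin_le C3 hC3p hδ, XX_tendsto.eventually_ge_atTop P1,
    XX_tendsto.eventually_ge_atTop P2] with r hlin hr1 hr2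
  have hP := DimCv_one_le_XX r
  have hXk : XX r ^ k = 2 ^ (r * k) := by
    unfold XX
    rw [← pow_mul]
  generalize XX r = P at *
  obtain ⟨m, hm⟩ : ∃ m : ℝ, m = ((mix (nxt k) 1 q P).card : ℝ) := ⟨_, rfl⟩
  have hm0 : 0 ≤ m := by rw [hm]; exact Nat.cast_nonneg _
  have hP0 : 0 < P := by linarith
  obtain ⟨τ, hτd⟩ : ∃ τ : ℝ, τ = ((nxt k)^[q] P) ^ (k - 1) := ⟨_, rfl⟩
  have hτ2 : τ ^ 2 ≤ C0 * P ^ (k - 1) := by rw [hτd]; exact hτ P hP
  obtain ⟨B0, hB0d⟩ : ∃ B0 : ℝ, B0 = max 1 τ := ⟨_, rfl⟩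
  have hB01 : 1 ≤ B0 := by rw [hB0d]; exact le_max_left _ _
  have hB0τ : τ ≤ B0 := by rw [hB0d]; exact le_max_right _ _
  have hPk : 1 ≤ P ^ (k - 1) := one_le_pow₀ hP
  have hB02 : B0 ^ 2 ≤ C0 * P ^ (k - 1) := by
    rcases le_total τ 1 with h | h
    · rw [hB0d, max_eq_left h, one_pow]
      exact one_le_mul_of_one_le_of_one_le hC0 hPk
    · rw [hB0d, max_eq_right h]
      exact hτ2
  obtain ⟨L, hLd⟩ : ∃ L : ℝ, L = CL * P ^ (k - 1) := ⟨_, rfl⟩
  have hL0 : 0 < L := by rw [hLd]; positivity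
  have hB0L : B0 ≤ L := by
    have h1 : B0 ≤ B0 ^ 2 := le_self_pow₀ hB01 two_ne_zero
    have h2 : C0 * P ^ (k - 1) ≤ CL * P ^ (k - 1) :=
      mul_le_mul_of_nonneg_right hCL0 (by positivity)
    rw [hLd]
    linarith
  have hI : L ≤ 2 ^ (r * k + c') * B0 := by
    have h1 : P ^ (k - 1) ≤ P ^ k := pow_le_pow_right₀ hP (by omega)
    have h2 : L ≤ 2 ^ (r * k + c') := by
      rw [hLd, pow_add, ← hXk, mul_comm]
      exact mul_le_mul h1 hc.le (by linarith) (by positivity)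
    have h3 : (0 : ℝ) < 2 ^ (r * k + c') := by positivity
    exact h2.trans (le_mul_of_one_le_right h3.le hB01)
  obtain ⟨K, hKd⟩ : ∃ K : ℝ, K = Z * m ^ 2 / P ^ (2 * k - 1) := ⟨_, rfl⟩
  have hK0 : 0 ≤ K := by rw [hKd]; positivity
  have hKP : K * P ^ (k - 1) = Z * (m ^ 2 / P ^ k) := by
    have e1 : P ^ (2 * k - 1) = P ^ (k - 1) * P ^ k := by
      rw [← pow_add]
      congr 1
      omega
    rw [hKd, e1]
    field_simp
  have hbd : ∀ d : ℕ → ℝ, (∀ i < k, |d i| ≤ T) → ∀ i ∈ (mix (nxt k) 1 q P) ×ˢ (mix (nxt k) 1 q P),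
      |rs (fun x : ℕ => lo k d x) i.1 - rs (fun x : ℕ => lo k d x) i.2| ≤ L := by
    intro d hd i hi
    have h1 := hpw P hr2 d hd i.1 (Finset.mem_product.1 hi).1
    have h2 := hpw P hr2 d hd i.2 (Finset.mem_product.1 hi).2
    have h3 := abs_sub (rs (fun x : ℕ => lo k d x) i.1) (rs (fun x : ℕ => lo k d x) i.2)
    have h4 : 2 * C2 * P ^ (k - 1) ≤ CL * P ^ (k - 1) :=
      mul_le_mul_of_nonneg_right hCL2 (by positivity)
    rw [hLd]
    linarith
  have key := avg_nl (ι := List ℕ × List ℕ)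
    (S := (mix (nxt k) 1 q P) ×ˢ (mix (nxt k) 1 q P))
    (G := fun i t => rs (fun x : ℕ => pl k (fun i => c i t) x) i.1 -
          rs (fun x : ℕ => pl k (fun i => c i t) x) i.2)
    (G' := fun i t => rs (fun x : ℕ => lo k (fun i => c1 i t) x) i.1 -
          rs (fun x : ℕ => lo k (fun i => c1 i t) x) i.2)
    (a := a) (b := b) (L := L) (B0 := B0) (K := K) (M := M0) (I := r * k + c')
    hab (by linarith) hB01 hB0L hI hK0
    (fun i _ x _ => DimCv_pl h1 i.1 i.2 x)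
    (fun i hi => DimCv_mv (fun x => DimCv_lo2 h2 i.1 i.2 x)
      (fun t ht => hbd (fun i => c2 i t) (fun i hi => hb2 i hi t ht) i hi))
    (fun i hi t ht => hbd (fun i => c1 i t) (fun i hi => hb1 i hi t ht) i hi)
    (by
      intro x hx B hB hBL
      have hB1 : 1 ≤ B := hB01.trans hB
      have hBpos : 0 < B := by linarith
      obtain ⟨M', hM'⟩ : ∃ M' : ℝ, M' = (M0 + 3) * B := ⟨_, rfl⟩
      have hM'B : B ≤ M' := by
        rw [hM']
        exact le_mul_of_one_le_left hBpos.le (by linarith)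
      have hM'0 : 0 ≤ M' := by linarith
      have h1 : cn ((mix (nxt k) 1 q P) ×ˢ (mix (nxt k) 1 q P))
          (fun j => |rs (fun z : ℕ => pl k (fun i => c i x) z) j.1 -
            rs (fun z : ℕ => pl k (fun i => c i x) z) j.2| ≤ M0 + 2 * B ^ 2 / L ∧
            |rs (fun z : ℕ => lo k (fun i => c1 i x) z) j.1 -
              rs (fun z : ℕ => lo k (fun i => c1 i x) z) j.2| ≤ 3 * B) ≤
          pairs (mix (nxt k) 1 q P) (fun p =>
            |rs (fun z : ℕ => pl k (fun i => c i x) z) p.2 -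
              rs (fun z : ℕ => pl k (fun i => c i x) z) p.1| ≤ M' ∧
            |rs (fun z : ℕ => lo k (fun i => c1 i x) z) p.2 -
              rs (fun z : ℕ => lo k (fun i => c1 i x) z) p.1| ≤ M') := by
        rw [pairs_eq_cn]
        refine cn_mono fun w _ hw => ?_
        obtain ⟨ha, hb⟩ := hw
        have h2 : 2 * B ^ 2 / L ≤ 2 * B := by
          rw [div_le_iff₀ hL0]
          have h21 : B * B ≤ B * L := mul_le_mul_of_nonneg_left hBL hBpos.le
          have h22 : 2 * B ^ 2 = 2 * (B * B) := by ring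
          have h23 : 2 * B * L = 2 * (B * L) := by ring
          rw [h22, h23]
          exact mul_le_mul_of_nonneg_left h21 (by norm_num)
        have hTB : M0 ≤ M0 * B := le_mul_of_one_le_right (by linarith only [hM0]) hB1
        have hMe : (M0 + 3) * B = M0 * B + 3 * B := by ring
        constructor
        · rw [abs_sub_comm, hM', hMe]
          linarith only [ha, h2, hTB, hBpos]
        · rw [abs_sub_comm, hM', hMe]
          linarith only [hb, hTB, hM0]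
      refine h1.trans ?_
      have h5 := pairs_le_of (W := mix (nxt k) 1 q P)
        (R := fun w w' => |rs (fun z : ℕ => pl k (fun i => c i x) z) w' -
              rs (fun z : ℕ => pl k (fun i => c i x) z) w| ≤ M' ∧
            |rs (fun z : ℕ => lo k (fun i => c1 i x) z) w' -
              rs (fun z : ℕ => lo k (fun i => c1 i x) z) w| ≤ M')
        (B := C1 * m * M' ^ 2 / P ^ (2 * k - 1)) (by
          intro w hw
          have h6 := hAB P hr1 (fun i => c i x) (fun i => c1 i x) (fun i hi => hb0 i hi x hx)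
            (fun i hi => hb1 i hi x hx) (hlow x hx) (rs (fun z : ℕ => pl k (fun i => c i x) z) w)
            (rs (fun z : ℕ => lo k (fun i => c1 i x) z) w) M' hM'0
          rw [← hτd, ← hm, max_eq_left (by linarith)] at h6
          exact h6)
      refine h5.trans (le_of_eq ?_)
      rw [← hm, hKd, hM', hZ]
      ring)
  have hI0 : (((r * k + c' : ℕ)) : ℝ) ≤ (k + c') * ((r : ℝ) + 1) := by
    push_cast
    have : (0 : ℝ) ≤ r := Nat.cast_nonneg r
    have hc0 : (0 : ℝ) ≤ c' := Nat.cast_nonneg c'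
    have h1 := mul_nonneg this hc0
    have h2 : ((k : ℝ) + c') * ((r : ℝ) + 1) = r * k + c' + (k + r * c') := by ring
    rw [h2]
    linarith only [h1, hkR]
  have hY0 : 0 ≤ m ^ 2 / P ^ k := by positivity
  have e1 : (b - a) * K * B0 ^ 2 ≤ ((b - a) * C0) * (Z * (m ^ 2 / P ^ k)) := by
    rw [← hKP]
    have h1 : K * B0 ^ 2 ≤ K * (C0 * P ^ (k - 1)) := mul_le_mul_of_nonneg_left hB02 hK0
    have h2 : (b - a) * (K * B0 ^ 2) ≤ (b - a) * (K * (C0 * P ^ (k - 1))) :=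
      mul_le_mul_of_nonneg_left h1 hba
    linarith
  have e2 : 8 * ((r * k + c' : ℕ) : ℝ) * K * L * M0 * (1 + (b - a)) ≤
      (8 * (k + c') * CL * M0 * (1 + (b - a))) * ((r : ℝ) + 1) * (Z * (m ^ 2 / P ^ k)) := by
    rw [← hKP, hLd]
    have h1 : 0 ≤ 8 * K * (CL * P ^ (k - 1)) * M0 * (1 + (b - a)) := by positivity
    have h2 := mul_le_mul_of_nonneg_right hI0 h1
    calc 8 * ((r * k + c' : ℕ) : ℝ) * K * (CL * P ^ (k - 1)) * M0 * (1 + (b - a))
        = ((r * k + c' : ℕ) : ℝ) * (8 * K * (CL * P ^ (k - 1)) * M0 * (1 + (b - a))) := by ring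
      _ ≤ (k + c') * ((r : ℝ) + 1) * (8 * K * (CL * P ^ (k - 1)) * M0 * (1 + (b - a))) := h2
      _ = _ := by ring
  have e3 : ((b - a) * C0) * (Z * (m ^ 2 / P ^ k)) ≤
      ((b - a) * C0) * ((r : ℝ) + 1) * (Z * (m ^ 2 / P ^ k)) := by
    have h1 : 0 ≤ ((b - a) * C0) * (Z * (m ^ 2 / P ^ k)) := by positivity
    have h2 : (0 : ℝ) ≤ r := Nat.cast_nonneg r
    have h3 := mul_nonneg h2 h1
    have h4 : ((b - a) * C0) * ((r : ℝ) + 1) * (Z * (m ^ 2 / P ^ k)) =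
        ((b - a) * C0) * (Z * (m ^ 2 / P ^ k)) + r * (((b - a) * C0) * (Z * (m ^ 2 / P ^ k))) := by
      ring
    rw [h4]
    linarith only [h3]
  rw [← hm]
  calc _ ≤ _ := key
    _ ≤ ((b - a) * C0) * ((r : ℝ) + 1) * (Z * (m ^ 2 / P ^ k)) +
        (8 * (k + c') * CL * M0 * (1 + (b - a))) * ((r : ℝ) + 1) * (Z * (m ^ 2 / P ^ k)) := by
        linarith
    _ = C3 * ((r : ℝ) + 1) * (m ^ 2 / P ^ k) := by
        rw [hC3]
        ring
    _ ≤ _ := mul_le_mul_of_nonneg_right hlin hY0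

theorem dimCv {k q : ℕ} (hk : 2 ≤ k) (hq : (1 - 1 / (k : ℝ)) ^ q ≤ 1 / 2) {c c1 c2 : ℕ → ℝ → ℝ}
    (h1 : ∀ i < k, ∀ t, HasDerivAt (c i) (c1 i t) t)
    (h2 : ∀ i < k, ∀ t, HasDerivAt (c1 i) (c2 i t) t) {a b T δ0 : ℝ} (hab : a ≤ b)
    (hT : 0 ≤ T) (hδ0 : 0 < δ0) (hb0 : ∀ i < k, ∀ t ∈ Set.Icc a b, |c i t| ≤ T)
    (hb1 : ∀ i < k, ∀ t ∈ Set.Icc a b, |c1 i t| ≤ T)
    (hb2 : ∀ i < k, ∀ t ∈ Set.Icc a b, |c2 i t| ≤ T)
    (hlow : ∀ t ∈ Set.Icc a b, δ0 ≤ |c1 (k - 1) t|) {ε : ℝ} (hε : 0 < ε) (hε1 : ε ≤ 1) :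
    dimH {t : ℝ | t ∈ Set.Icc a b ∧ ∃ M : ℝ, ∃ᶠ r : ℕ in atTop,
      (XX r) ^ ε * ((mix (nxt k) 1 q (XX r)).card : ℝ) ^ 2 / (XX r) ^ k <
      pairs (mix (nxt k) 1 q (XX r)) (fun p =>
        |rs (fun x : ℕ => pl k (fun i => c i t) x) p.1 -
          rs (fun x : ℕ => pl k (fun i => c i t) x) p.2| ≤ M)} ≤
      ENNReal.ofReal (1 - ε / (4 * k)) := by
  have hkR : (2 : ℝ) ≤ k := by exact_mod_cast hk
  obtain ⟨E, hE⟩ : ∃ E : ℕ → Set ℝ, E = fun n : ℕ =>
      {t : ℝ | t ∈ Set.Icc a b ∧ ∃ᶠ r : ℕ in atTop,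
      (XX r) ^ (2 * (ε / 2)) * (((mix (nxt k) 1 q (XX r)).card : ℝ) ^ 2 / (XX r) ^ k) <
      cn ((mix (nxt k) 1 q (XX r)) ×ˢ (mix (nxt k) 1 q (XX r))) (fun j =>
        |rs (fun x : ℕ => pl k (fun i => c i t) x) j.1 -
          rs (fun x : ℕ => pl k (fun i => c i t) x) j.2| ≤ (n : ℝ))} := ⟨_, rfl⟩
  have hE1 : ∀ n : ℕ, dimH (E n) ≤ ENNReal.ofReal (1 - ε / (4 * k)) := by
    intro n
    have hn : (0 : ℝ) ≤ n := Nat.cast_nonneg n
    obtain ⟨C2, hC2, P2, hP2, hpw⟩ := mixC_lo (n := k) hk (by omega) hT q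
    have h3 := dim_of_avg (ι := List ℕ × List ℕ)
      (S := fun r => (mix (nxt k) 1 q (XX r)) ×ˢ (mix (nxt k) 1 q (XX r)))
      (G := fun j t => rs (fun x : ℕ => pl k (fun i => c i t) x) j.1 -
          rs (fun x : ℕ => pl k (fun i => c i t) x) j.2)
      (a := a) (b := b) (M := (n : ℝ)) (δ := ε / 2) (Λ := (k : ℝ))
      (Y := fun r => ((mix (nxt k) 1 q (XX r)).card : ℝ) ^ 2 / (XX r) ^ k)
      hab (by linarith) (by linarith)
      (by
        filter_upwards [DimCv_card_ev hk q] with r hr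
        have := XX_pos r
        positivity)
      (by
        intro r i _ x _
        exact (DimCv_pl h1 i.1 i.2 x).continuousAt.continuousWithinAt)
      (by
        filter_upwards [XX_tendsto.eventually_ge_atTop P2,
          XX_tendsto.eventually_ge_atTop (2 * C2)] with r hr1 hr2 i hi
        have hP := DimCv_one_le_XX r
        have hP0 := XX_pos r
        rw [Real.rpow_natCast]
        refine DimCv_mv (fun x => DimCv_pl h1 i.1 i.2 x) ?_
        intro t ht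
        have h3 := hpw (XX r) hr1 (fun i => c1 i t) (fun i hi => hb1 i hi t ht) i.1
          (Finset.mem_product.1 hi).1
        have h4 := hpw (XX r) hr1 (fun i => c1 i t) (fun i hi => hb1 i hi t ht) i.2
          (Finset.mem_product.1 hi).2
        have h6 := abs_sub (rs (fun x : ℕ => lo k (fun i => c1 i t) x) i.1)
          (rs (fun x : ℕ => lo k (fun i => c1 i t) x) i.2)
        generalize XX r = P at *
        have h7 : P ^ k = P * P ^ (k - 1) := by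
          rw [← pow_succ']
          congr 1
          omega
        have h8 : 2 * C2 * P ^ (k - 1) ≤ P * P ^ (k - 1) :=
          mul_le_mul_of_nonneg_right hr2 (by positivity)
        rw [h7]
        linarith)
      (by
        exact DimCv_avg_bound hk hq h1 h2 hab hT hδ0 hb0 hb1 hb2 hlow ((n : ℝ) + 1) (by linarith)
          (by positivity))
    have e1 : 1 - ε / 2 / (2 * (k : ℝ)) = 1 - ε / (4 * k) := by
      have : (k : ℝ) ≠ 0 := by linarith
      field_simp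
      ring
    rw [e1] at h3
    rw [hE]
    exact h3
  have hE2 : {t : ℝ | t ∈ Set.Icc a b ∧ ∃ M : ℝ, ∃ᶠ r : ℕ in atTop,
      (XX r) ^ ε * ((mix (nxt k) 1 q (XX r)).card : ℝ) ^ 2 / (XX r) ^ k <
      pairs (mix (nxt k) 1 q (XX r)) (fun p =>
        |rs (fun x : ℕ => pl k (fun i => c i t) x) p.1 -
          rs (fun x : ℕ => pl k (fun i => c i t) x) p.2| ≤ M)} ⊆ ⋃ n, E n := by
    rintro t ⟨ht, M, hM⟩
    obtain ⟨n, hn⟩ := exists_nat_ge M
    rw [Set.mem_iUnion]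
    refine ⟨n, ?_⟩
    rw [hE]
    refine ⟨ht, ?_⟩
    refine hM.mono fun r hr => ?_
    rw [show 2 * (ε / 2) = ε by ring, ← mul_div_assoc]
    refine hr.trans_le ?_
    rw [pairs_eq_cn]
    exact cn_mono fun w _ hw => hw.trans hn
  refine (dimH_mono hE2).trans ?_
  rw [dimH_iUnion]
  exact iSup_le hE1

end YWar
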