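import Pool.Agent.YWar.FinCv
import Pool.Agent.FWar.ResS

/-!
# YWar.ResCv: final form for curves of polynomials

`C²` coefficient functions `c i` (`i < k`), no other condition: the exceptional `t` among those with
`(c (k-1))' t ≠ 0` form a set of dimension at most `d < 1`, `d` depends on `k` only. Cover by countably
many closed intervals with rational end points on which `|(c (k-1))'| ≥ 1/(n+1)`.
-/

namespace YWar

open MWg FWar MeasureTheory Filter Topology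

/-- The property of the function `f`. -/
def BadC (k q : ℕ) (c : ℕ → ℝ → ℝ) (t : ℝ) : Prop :=
  ¬ ∀ α : ℝ, 0 < α → FloorP (fun x => α * pl k (fun i => c i t) x) (4 * q + 7)

private theorem bdd_fam {k : ℕ} {f : ℕ → ℝ → ℝ} (hf : ∀ i < k, Continuous (f i)) (a b : ℝ) :
    ∃ T : ℝ, 0 ≤ T ∧ ∀ i < k, ∀ t ∈ Set.Icc a b, |f i t| ≤ T := by
  have hc : Continuous fun t => ∑ i ∈ Finset.range k, |f i t| :=
    continuous_finsetSum _ fun i hi => (hf i (Finset.mem_range.1 hi)).abs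
  obtain ⟨T, hT⟩ := (isCompact_Icc (a := a) (b := b)).exists_bound_of_continuousOn hc.continuousOn
  refine ⟨max T 0, le_max_right _ _, fun i hi t ht => ?_⟩
  have h1 := hT t ht
  rw [Real.norm_eq_abs] at h1
  have h2 : |f i t| ≤ ∑ i ∈ Finset.range k, |f i t| :=
    Finset.single_le_sum (f := fun i => |f i t|) (fun j _ => abs_nonneg _)
      (Finset.mem_range.2 hi)
  exact (h2.trans (le_abs_self _)).trans (h1.trans (le_max_left _ _))

theorem curve_q {k q : ℕ} (hk : 2 ≤ k) (hq : (1 - 1 / (k : ℝ)) ^ (q + 1) ≤ 1 / 2) :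
    ∃ d : ℝ, d < 1 ∧ ∀ c : ℕ → ℝ → ℝ, (∀ i < k, ContDiff ℝ 2 (c i)) →
      dimH {t : ℝ | deriv (c (k - 1)) t ≠ 0 ∧ BadC k q c t} ≤ ENNReal.ofReal d := by
  obtain ⟨d, hd, h⟩ := floor_curve_q hk hq
  refine ⟨d, hd, fun c hc => ?_⟩
  have hd1 : ∀ i < k, ContDiff ℝ 1 (deriv (c i)) := fun i hi => by
    have h1 : ContDiff ℝ ((1 : ℕ) + (1 : ℕ) : ℕ) (c i) := by
      have := hc i hi
      exact_mod_cast this
    have h2 := ContDiff.iterate_deriv' 1 1 h1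
    simpa using h2
  have h1 : ∀ i < k, ∀ t, HasDerivAt (c i) (deriv (c i) t) t := fun i hi t =>
    (((hc i hi).differentiable (by norm_num)) t).hasDerivAt
  have h2 : ∀ i < k, ∀ t, HasDerivAt (deriv (c i)) (deriv (deriv (c i)) t) t := fun i hi t =>
    (((hd1 i hi).differentiable (by norm_num)) t).hasDerivAt
  have k0 : ∀ i < k, Continuous (c i) := fun i hi => (hc i hi).continuous
  have k1 : ∀ i < k, Continuous (deriv (c i)) := fun i hi => (hd1 i hi).continuous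
  have k2 : ∀ i < k, Continuous (deriv (deriv (c i))) := fun i hi =>
    (hd1 i hi).continuous_deriv le_rfl
  have hkk : k - 1 < k := by omega
  obtain ⟨E, hE⟩ : ∃ E : (ℚ × ℚ) × ℕ → Set ℝ, E = fun p =>
      {t : ℝ | (p.1.1 : ℝ) ≤ p.1.2 ∧
        (∀ s ∈ Set.Icc (p.1.1 : ℝ) p.1.2, 1 / ((p.2 : ℝ) + 1) ≤ |deriv (c (k - 1)) s|) ∧
        t ∈ Set.Icc (p.1.1 : ℝ) p.1.2 ∧ BadC k q c t} := ⟨_, rfl⟩
  have hsub : {t : ℝ | deriv (c (k - 1)) t ≠ 0 ∧ BadC k q c t} ⊆ ⋃ p, E p := by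
    rintro t ⟨ht, hbad⟩
    have habs : 0 < |deriv (c (k - 1)) t| := abs_pos.2 ht
    obtain ⟨n, hn⟩ := exists_nat_one_div_lt habs
    have hev : ∀ᶠ s in 𝓝 t, 1 / ((n : ℝ) + 1) < |deriv (c (k - 1)) s| :=
      (k1 (k - 1) hkk).abs.continuousAt.eventually (lt_mem_nhds hn)
    obtain ⟨η, hη, hball⟩ := Metric.eventually_nhds_iff.1 hev
    obtain ⟨p, hp1, hp2⟩ := exists_rat_btwn (show t - η < t by linarith)
    obtain ⟨p', hp1', hp2'⟩ := exists_rat_btwn (show t < t + η by linarith)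
    rw [Set.mem_iUnion]
    refine ⟨((p, p'), n), ?_⟩
    rw [hE]
    refine ⟨by show (p : ℝ) ≤ p'; linarith, fun s hs => ?_, ⟨hp2.le, hp1'.le⟩, hbad⟩
    refine (hball ?_).le
    have hs1 : (p : ℝ) ≤ s := hs.1
    have hs2 : s ≤ (p' : ℝ) := hs.2
    rw [Real.dist_eq, abs_lt]
    constructor <;> linarith
  refine (dimH_mono hsub).trans ?_
  rw [dimH_iUnion]
  refine iSup_le fun p => ?_
  by_cases hp : (p.1.1 : ℝ) ≤ p.1.2 ∧
      ∀ s ∈ Set.Icc (p.1.1 : ℝ) p.1.2, 1 / ((p.2 : ℝ) + 1) ≤ |deriv (c (k - 1)) s|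
  · obtain ⟨hab, hlow⟩ := hp
    obtain ⟨T0, hT0, hb0⟩ := bdd_fam k0 (p.1.1 : ℝ) p.1.2
    obtain ⟨T1, hT1, hb1⟩ := bdd_fam k1 (p.1.1 : ℝ) p.1.2
    obtain ⟨T2, hT2, hb2⟩ := bdd_fam k2 (p.1.1 : ℝ) p.1.2
    have h3 := h h1 h2 (T := T0 + T1 + T2) (δ0 := 1 / ((p.2 : ℝ) + 1)) hab (by positivity)
      (by positivity) (fun i hi t ht => (hb0 i hi t ht).trans (by linarith))
      (fun i hi t ht => (hb1 i hi t ht).trans (by linarith))
      (fun i hi t ht => (hb2 i hi t ht).trans (by linarith)) hlow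
    refine (dimH_mono ?_).trans h3
    intro t ht
    rw [hE] at ht
    exact ⟨ht.2.2.1, ht.2.2.2⟩
  · have : E p = ∅ := by
      rw [hE]
      ext t
      simp only [Set.mem_empty_iff_false, iff_false]
      exact fun ht => hp ⟨ht.1, ht.2.1⟩
    rw [this, dimH_empty]
    exact zero_le

theorem res_curve_dim {k : ℕ} (hk : 2 ≤ k) : ∃ d : ℝ, d < 1 ∧
    ∀ c : ℕ → ℝ → ℝ, (∀ i < k, ContDiff ℝ 2 (c i)) →
    dimH {t : ℝ | deriv (c (k - 1)) t ≠ 0 ∧
      ¬ ∀ m : ℕ, (4 * k - 1 ≤ m ∨ 4 * Real.log 2 * k + 7 ≤ (m : ℝ)) →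
      ∀ α : ℝ, 0 < α → Rep (fun x => α * ((x : ℝ) ^ k + ∑ i ∈ Finset.range k, c i t * (x : ℝ) ^ i)) m}
      ≤ ENNReal.ofReal d := by
  obtain ⟨q, hq, hq7⟩ := ResS_log_bound hk
  have hq1 : (1 - 1 / (k : ℝ)) ^ (k - 2 + 1) ≤ 1 / 2 := by
    have : k - 2 + 1 = k - 1 := by omega
    rw [this]
    exact ResS_half_bound hk
  obtain ⟨d1, hd1, h1⟩ := curve_q hk hq1
  obtain ⟨d2, hd2, h2⟩ := curve_q hk hq
  refine ⟨max d1 d2, max_lt hd1 hd2, fun c hc => ?_⟩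
  have hsub : {t : ℝ | deriv (c (k - 1)) t ≠ 0 ∧
      ¬ ∀ m : ℕ, (4 * k - 1 ≤ m ∨ 4 * Real.log 2 * k + 7 ≤ (m : ℝ)) →
      ∀ α : ℝ, 0 < α → Rep (fun x => α * ((x : ℝ) ^ k + ∑ i ∈ Finset.range k, c i t * (x : ℝ) ^ i)) m}
      ⊆ {t : ℝ | deriv (c (k - 1)) t ≠ 0 ∧ BadC k (k - 2) c t} ∪
      {t : ℝ | deriv (c (k - 1)) t ≠ 0 ∧ BadC k q c t} := by
    rintro t ⟨ht, hb⟩
    rw [Set.mem_union]
    by_contra hcon
    rw [not_or] at hcon
    obtain ⟨ha, hc⟩ := hcon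
    have ha' : ∀ α : ℝ, 0 < α → FloorP (fun x => α * pl k (fun i => c i t) x) (4 * (k - 2) + 7) := by
      by_contra h
      exact ha ⟨ht, h⟩
    have hc' : ∀ α : ℝ, 0 < α → FloorP (fun x => α * pl k (fun i => c i t) x) (4 * q + 7) := by
      by_contra h
      exact hc ⟨ht, h⟩
    refine hb ?_
    intro m hm α hα
    apply rep_of
    intro A hA
    have hA0 : (0 : ℝ) < A := by
      have : 0 < A := hA
      exact_mod_cast this
    have e1 : (fun x : ℕ => (A : ℝ) * (α * ((x : ℝ) ^ k +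
        ∑ i ∈ Finset.range k, c i t * (x : ℝ) ^ i))) =
        fun x : ℕ => (A * α) * pl k (fun i => c i t) x := by
      funext x
      unfold pl lo
      ring
    rw [e1]
    rcases hm with hm | hm
    · exact floor_longer (by omega) (ha' (A * α) (by positivity))
    · refine floor_longer ?_ (hc' (A * α) (by positivity))
      have : ((4 * q + 7 : ℕ) : ℝ) < (m : ℝ) := lt_of_lt_of_le hq7 hm
      exact_mod_cast this.le
  refine (dimH_mono hsub).trans ?_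
  rw [dimH_union]
  exact max_le ((h1 c hc).trans (ENNReal.ofReal_le_ofReal (le_max_left _ _)))
    ((h2 c hc).trans (ENNReal.ofReal_le_ofReal (le_max_right _ _)))

end YWar
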